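import Pool.Agent.Q94.CI.Stm

set_option autoImplicit false

open MeasureTheory Metric Set Filter Topology
open scoped ENNReal NNReal

namespace Pool.Agent.Q94.CI

section basic

variable {N : ℕ} {p : ℝ}

lemma energy_nonneg' (φ : E N → ℝ) : 0 ≤ energy p φ :=
  integral_nonneg fun _ => Real.rpow_nonneg (norm_nonneg _) _

lemma bdd' (K U : Set (E N)) :
    BddBelow {e : ℝ | ∃ φ : E N → ℝ, IsTest φ U ∧ (∀ x ∈ K, 1 ≤ φ x) ∧ e = energy p φ} :=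
  ⟨0, by rintro e ⟨φ, -, -, rfl⟩; exact energy_nonneg' φ⟩

lemma cap_le' {K U : Set (E N)} {φ : E N → ℝ} (h : IsTest φ U) (h1 : ∀ x ∈ K, 1 ≤ φ x) :
    cap p K U ≤ energy p φ := csInf_le (bdd' K U) ⟨φ, h, h1, rfl⟩

/-- a smooth bump which is `1` on the unit ball -/
lemma exists_test (N : ℕ) (R : ℝ) (hR : 1 < R) : ∃ φ : E N → ℝ, IsTest φ (ball 0 R) ∧
    ∀ x ∈ closedBall (0 : E N) 1, 1 ≤ φ x := by
  let B : ContDiffBump (0 : E N) := ⟨1, (1 + R) / 2, one_pos, by linarith⟩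
  refine ⟨B, ⟨B.contDiff, B.hasCompactSupport, ?_⟩, fun x hx => ?_⟩
  · rw [B.tsupport_eq]
    exact closedBall_subset_ball (by show (1 + R) / 2 < R; linarith)
  · rw [B.one_of_mem_closedBall hx]

lemma nonempty_test (N : ℕ) (a : Bool) (K : Set (E N)) (hK : K ⊆ closedBall 0 1) :
    {e : ℝ | ∃ φ : E N → ℝ, IsTest φ (dom a 0 1) ∧ (∀ x ∈ K, 1 ≤ φ x) ∧
      e = energy p φ}.Nonempty := by
  obtain ⟨φ, h1, h2⟩ := exists_test N 2 (by norm_num)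
  refine ⟨energy p φ, φ, ⟨h1.1, h1.2.1, h1.2.2.trans ?_⟩, fun x hx => h2 x (hK hx), rfl⟩
  unfold dom
  split_ifs
  · simp
  · exact subset_univ _

lemma cap_anti0 {K U U' : Set (E N)} (h : U ⊆ U')
    (hne : {e : ℝ | ∃ φ : E N → ℝ, IsTest φ U ∧ (∀ x ∈ K, 1 ≤ φ x) ∧ e = energy p φ}.Nonempty) :
    cap p K U' ≤ cap p K U := by
  refine csInf_le_csInf (bdd' K U') hne ?_
  rintro e ⟨φ, h1, h2, rfl⟩
  exact ⟨φ, ⟨h1.1, h1.2.1, h1.2.2.trans h⟩, h2, rfl⟩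

end basic

section scaling

variable {N : ℕ}

lemma image_ball_inter (x₀ c : E N) {r t : ℝ} (hr : 0 < r) (F : Set (E N)) :
    (fun x => x₀ + r • x) '' (closedBall c t ∩ {z | x₀ + r • z ∈ F}) =
      closedBall (x₀ + r • c) (r * t) ∩ F := by
  ext x
  constructor
  · rintro ⟨z, ⟨hz, hzF⟩, rfl⟩
    refine ⟨?_, hzF⟩
    rw [mem_closedBall, dist_eq_norm] at hz ⊢
    have : x₀ + r • z - (x₀ + r • c) = r • (z - c) := by rw [smul_sub]; abel
    rw [this, norm_smul, Real.norm_of_nonneg hr.le]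
    exact mul_le_mul_of_nonneg_left hz hr.le
  · rintro ⟨hx, hxF⟩
    refine ⟨r⁻¹ • (x - x₀), ⟨?_, ?_⟩, ?_⟩
    · rw [mem_closedBall, dist_eq_norm] at hx ⊢
      have : r⁻¹ • (x - x₀) - c = r⁻¹ • (x - (x₀ + r • c)) := by
        rw [smul_sub, smul_sub, smul_add, smul_smul, inv_mul_cancel₀ hr.ne', one_smul]; abel
      rw [this, norm_smul, norm_inv, Real.norm_of_nonneg hr.le, inv_mul_le_iff₀ hr]
      exact hx
    · show x₀ + r • r⁻¹ • (x - x₀) ∈ F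
      rw [smul_smul, mul_inv_cancel₀ hr.ne', one_smul, add_sub_cancel]
      exact hxF
    · show x₀ + r • r⁻¹ • (x - x₀) = x
      rw [smul_smul, mul_inv_cancel₀ hr.ne', one_smul, add_sub_cancel]

lemma image_dom (b : Bool) (x₀ c : E N) {r t : ℝ} (hr : 0 < r) :
    (fun x => x₀ + r • x) '' (dom b c t) = dom b (x₀ + r • c) (r * t) := by
  unfold dom
  split_ifs
  · ext x
    constructor
    · rintro ⟨z, hz, rfl⟩
      rw [mem_ball, dist_eq_norm] at hz ⊢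
      have : x₀ + r • z - (x₀ + r • c) = r • (z - c) := by rw [smul_sub]; abel
      rw [this, norm_smul, Real.norm_of_nonneg hr.le]
      nlinarith
    · intro hx
      refine ⟨r⁻¹ • (x - x₀), ?_, ?_⟩
      · rw [mem_ball, dist_eq_norm] at hx ⊢
        have : r⁻¹ • (x - x₀) - c = r⁻¹ • (x - (x₀ + r • c)) := by
          rw [smul_sub, smul_sub, smul_add, smul_smul, inv_mul_cancel₀ hr.ne', one_smul]; abel
        rw [this, norm_smul, norm_inv, Real.norm_of_nonneg hr.le, inv_mul_lt_iff₀ hr]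
        linarith [hx]
      · show x₀ + r • r⁻¹ • (x - x₀) = x
        rw [smul_smul, mul_inv_cancel₀ hr.ne', one_smul, add_sub_cancel]
  · refine eq_univ_of_forall fun x => ⟨r⁻¹ • (x - x₀), mem_univ _, ?_⟩
    show x₀ + r • r⁻¹ • (x - x₀) = x
    rw [smul_smul, mul_inv_cancel₀ hr.ne', one_smul, add_sub_cancel]

lemma cap_scale (h1 : S1) {p : ℝ} (hp : 1 < p) (b : Bool) (x₀ c : E N) {r t : ℝ} (hr : 0 < r)
    (F : Set (E N)) :
    cap p (closedBall (x₀ + r • c) (r * t) ∩ F) (dom b (x₀ + r • c) (r * t)) =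
      r ^ ((N : ℝ) - p) * cap p (closedBall c t ∩ {z | x₀ + r • z ∈ F}) (dom b c t) := by
  rw [← h1 N p r x₀ _ _ hp hr, image_ball_inter x₀ c hr F, image_dom b x₀ c hr]

lemma cap_scale' (h1 : S1) {p : ℝ} (hp : 1 < p) (b : Bool) (x₀ c : E N) {r t : ℝ} (hr : 0 < r) :
    cap p (closedBall (x₀ + r • c) (r * t)) (dom b (x₀ + r • c) (r * t)) =
      r ^ ((N : ℝ) - p) * cap p (closedBall c t) (dom b c t) := by
  have := cap_scale h1 hp b x₀ c (t := t) hr univ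
  simpa using this

/-- the capacitary condition -/
def Adm (p γ : ℝ) (b : Bool) (F : Set (E N)) (r : ℝ) : Prop :=
  0 < r ∧ ∃ x₀ : E N, cap p (closedBall x₀ r ∩ F) (dom b x₀ r) ≤
    γ * cap p (closedBall x₀ r) (dom b x₀ r)

lemma adm_step (h1 : S1) (h7 : S7) {p γ : ℝ} (hN : 2 ≤ N) (hp : 1 < p) (hpN : p < N)
    (hγ : 0 < γ) (hγ1 : γ < 1) (a b : Bool) : ∃ ρ : ℝ, 0 < ρ ∧
    ∀ F : Set (E N), IsClosed F → ∀ r, Adm p γ a F r → Adm p γ b F (r * ρ) := by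
  obtain ⟨ρ, hρ, -, H⟩ := h7 N p γ hN hp hpN hγ hγ1 a b
  refine ⟨ρ, hρ, fun F hF r ⟨hr, x₀, hx⟩ => ⟨mul_pos hr hρ, ?_⟩⟩
  have hpow : 0 < r ^ ((N : ℝ) - p) := Real.rpow_pos_of_pos hr _
  have hF' : IsClosed {z : E N | x₀ + r • z ∈ F} :=
    hF.preimage (by fun_prop)
  have e1 := cap_scale h1 hp a x₀ (0 : E N) (t := 1) hr F
  have e2 := cap_scale' h1 hp a x₀ (0 : E N) (t := 1) hr
  rw [smul_zero, add_zero, mul_one] at e1 e2
  rw [e1, e2] at hx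
  obtain ⟨y, hy⟩ := H _ hF' (by
    rw [mul_left_comm] at hx
    exact le_of_mul_le_mul_left hx hpow)
  refine ⟨x₀ + r • y, ?_⟩
  rw [cap_scale h1 hp b x₀ y hr F, cap_scale' h1 hp b x₀ y hr]
  calc _ ≤ r ^ ((N : ℝ) - p) * (γ * cap p (closedBall y ρ) (dom b y ρ)) :=
        mul_le_mul_of_nonneg_left hy hpow.le
    _ = _ := by ring

lemma Rrel_eq (p γ : ℝ) (Ω : Set (E N)) :
    Rrel p γ Ω = ⨆ (r : ℝ) (_ : Adm p γ true Ωᶜ r), ENNReal.ofReal r := by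
  unfold Rrel Adm dom
  simp only [sdiff_eq, if_true]

lemma RMS_eq (p γ : ℝ) (Ω : Set (E N)) :
    RMS p γ Ω = ⨆ (r : ℝ) (_ : Adm p γ false Ωᶜ r), ENNReal.ofReal r := by
  unfold RMS Adm dom
  simp only [sdiff_eq]
  rfl

theorem main_of (h1 : S1) (h7 : S7) : Main := by
  intro N p γ hN hp hpN hγ hγ1
  obtain ⟨ρ₁, hρ₁, H1⟩ := adm_step h1 h7 hN hp hpN hγ hγ1 false true
  obtain ⟨ρ₂, hρ₂, H2⟩ := adm_step h1 h7 hN hp hpN hγ hγ1 true false
  refine ⟨ρ₁, ρ₂⁻¹, hρ₁, inv_pos.2 hρ₂, fun Ω hΩ => ⟨?_, ?_⟩⟩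
  · rw [RMS_eq, Rrel_eq, ENNReal.mul_iSup]
    refine iSup_le fun r => ?_
    rw [ENNReal.mul_iSup]
    refine iSup_le fun hr => ?_
    have := H1 _ hΩ.isClosed_compl r hr
    rw [← ENNReal.ofReal_mul hρ₁.le, mul_comm]
    exact le_iSup₂_of_le (r * ρ₁) this le_rfl
  · rw [RMS_eq, Rrel_eq]
    refine iSup₂_le fun r hr => ?_
    have := H2 _ hΩ.isClosed_compl r hr
    have e : ENNReal.ofReal r = ENNReal.ofReal ρ₂⁻¹ * ENNReal.ofReal (r * ρ₂) := by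
      rw [← ENNReal.ofReal_mul (inv_pos.2 hρ₂).le]
      congr 1
      field_simp
    rw [e]
    gcongr
    exact le_iSup₂_of_le (f := fun (r : ℝ) (_ : Adm p γ false Ωᶜ r) => ENNReal.ofReal r)
      (r * ρ₂) this le_rfl

end scaling

end Pool.Agent.Q94.CI
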