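import Mathlib

/-!
# Statements for MP_4d7ea7_an (capacitary inradii)

`cap p K U` is the relative `p`-capacity of `K` in `U` (the absolute one for `U = univ`).
-/

set_option autoImplicit false

open MeasureTheory Metric Set
open scoped ENNReal NNReal

namespace Pool.Agent.Q94.CI

/-- Euclidean space. -/
abbrev E (N : ℕ) := EuclideanSpace ℝ (Fin N)

/-- `φ ∈ C_0^∞(U)`. -/
def IsTest {N : ℕ} (φ : E N → ℝ) (U : Set (E N)) : Prop :=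
  ContDiff ℝ (⊤ : ℕ∞) φ ∧ HasCompactSupport φ ∧ tsupport φ ⊆ U

/-- `∫ |∇φ|^p`. -/
noncomputable def energy {N : ℕ} (p : ℝ) (φ : E N → ℝ) : ℝ := ∫ x, ‖fderiv ℝ φ x‖ ^ p

/-- the `p`-capacity of `K` relative to `U`. -/
noncomputable def cap {N : ℕ} (p : ℝ) (K U : Set (E N)) : ℝ :=
  sInf {e : ℝ | ∃ φ : E N → ℝ, IsTest φ U ∧ (∀ x ∈ K, 1 ≤ φ x) ∧ e = energy p φ}

/-- the capacitary inradius `R_{p,γ}(Ω)`. -/
noncomputable def Rrel {N : ℕ} (p γ : ℝ) (Ω : Set (E N)) : ℝ≥0∞ :=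
  ⨆ (r : ℝ) (_ : 0 < r ∧ ∃ x₀ : E N, cap p (closedBall x₀ r \ Ω) (ball x₀ (2 * r)) ≤
    γ * cap p (closedBall x₀ r) (ball x₀ (2 * r))), ENNReal.ofReal r

/-- the Maz'ya-Shubin inradius `R^{MS}_{p,γ}(Ω)`. -/
noncomputable def RMS {N : ℕ} (p γ : ℝ) (Ω : Set (E N)) : ℝ≥0∞ :=
  ⨆ (r : ℝ) (_ : 0 < r ∧ ∃ x₀ : E N, cap p (closedBall x₀ r \ Ω) univ ≤
    γ * cap p (closedBall x₀ r) univ), ENNReal.ofReal r

/-- the main theorem. -/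
def Main : Prop := ∀ (N : ℕ) (p γ : ℝ), 2 ≤ N → 1 < p → p < N → 0 < γ → γ < 1 →
  ∃ c₁ c₂ : ℝ, 0 < c₁ ∧ 0 < c₂ ∧ ∀ Ω : Set (E N), IsOpen Ω →
    ENNReal.ofReal c₁ * RMS p γ Ω ≤ Rrel p γ Ω ∧ Rrel p γ Ω ≤ ENNReal.ofReal c₂ * RMS p γ Ω

/-- the total mass of the surface measure of the unit sphere. -/
noncomputable def sg (N : ℕ) : ℝ := ((volume : Measure (E N)).toSphere univ).toReal

/-- `∫_s^R r^{-(N-1)/(p-1)} dr`. -/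
noncomputable def Jc (N : ℕ) (p s R : ℝ) : ℝ :=
  (s ^ (1 - ((N : ℝ) - 1) / (p - 1)) - R ^ (1 - ((N : ℝ) - 1) / (p - 1))) /
    (((N : ℝ) - 1) / (p - 1) - 1)

/-- S1: scaling and translation. -/
def S1 : Prop := ∀ (N : ℕ) (p r : ℝ) (x₀ : E N) (K U : Set (E N)), 1 < p → 0 < r →
  cap p ((fun x => x₀ + r • x) '' K) ((fun x => x₀ + r • x) '' U) =
    r ^ ((N : ℝ) - p) * cap p K U

/-- S2: the Poincare inequality in the double integral form. -/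
def S2 : Prop := ∀ (N : ℕ) (p d : ℝ) (y : E N) (v : E N → ℝ), 1 ≤ N → 1 ≤ p → 0 < d →
  ContDiff ℝ (⊤ : ℕ∞) v →
  ∫⁻ x in ball y d, ∫⁻ z in ball y d, ENNReal.ofReal (|v x - v z| ^ p) ≤
    ENNReal.ofReal ((2 : ℝ) ^ (N : ℝ) * (2 * d) ^ p) * volume (ball y d) *
      ∫⁻ x in ball y d, ENNReal.ofReal (‖fderiv ℝ v x‖ ^ p)

/-- S3: the capacitary Poincare inequality. -/
def S3 : Prop := ∀ (N : ℕ) (p : ℝ), 1 ≤ N → 1 < p → ∃ C : ℝ, 0 < C ∧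
  ∀ (ρ m : ℝ) (y : E N) (K U : Set (E N)) (v : E N → ℝ), 0 < ρ → 0 < m →
    K ⊆ closedBall y ρ → ball y (2 * ρ) ⊆ U → ContDiff ℝ (⊤ : ℕ∞) v →
    (∀ x ∈ K, v x ≤ 0) → m ≤ cap p K U →
    ENNReal.ofReal m * ∫⁻ x in ball y (2 * ρ), ENNReal.ofReal ((max (v x) 0) ^ p) ≤
      ENNReal.ofReal (C * ρ ^ (N : ℝ)) *
        ∫⁻ x in ball y (2 * ρ), ENNReal.ofReal (‖fderiv ℝ v x‖ ^ p)

/-- S4: averaging the local estimates. -/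
def S4 : Prop := ∀ (N : ℕ) (ρ : ℝ) (A : ℝ≥0∞) (f g : E N → ℝ≥0∞), 1 ≤ N → 0 < ρ → ρ ≤ 1 / 2 →
  Measurable f → Measurable g →
  (∀ y : E N, ‖y‖ < 1 - ρ →
    ∫⁻ x in ball y (2 * ρ), f x ≤ A * ∫⁻ x in ball y (2 * ρ), g x) →
  ∫⁻ x in ball (0 : E N) (1 - ρ), f x ≤ 4 ^ N * A * ∫⁻ x, g x

/-- S5: the lower bound for the energy, in polar coordinates. -/
def S5 : Prop := ∀ (N : ℕ) (p κ : ℝ), 2 ≤ N → 1 < p → p < N → 0 < κ → ∃ C : ℝ, 0 < C ∧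
  ∀ (s t R : ℝ) (φ : E N → ℝ), 0 < s → s < t → t < R → ContDiff ℝ (⊤ : ℕ∞) φ →
    (∀ x, R ≤ ‖x‖ → φ x = 0) →
    sg N ≤ (1 + κ) * Jc N p s R ^ (p - 1) * energy p φ +
      C / ((t - s) * s ^ ((N : ℝ) - 1)) *
        ∫ x in ball (0 : E N) t \ ball 0 s, (max (1 - φ x) 0) ^ p

/-- S6: the upper bound for the capacity of the unit ball. -/
def S6 : Prop := ∀ (N : ℕ) (p κ R : ℝ), 2 ≤ N → 1 < p → p < N → 0 < κ → κ < 1 → 1 < R →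
  cap p (closedBall (0 : E N) 1) (ball 0 R) ≤ sg N * ((1 - κ) * Jc N p 1 R) ^ (1 - p)

/-- the domain belonging to a ball: `true` is the relative, `false` the absolute capacity. -/
def dom {N : ℕ} (b : Bool) (y : E N) (r : ℝ) : Set (E N) := if b then ball y (2 * r) else univ

/-- S7: the main step, at unit scale. -/
def S7 : Prop := ∀ (N : ℕ) (p γ : ℝ), 2 ≤ N → 1 < p → p < N → 0 < γ → γ < 1 →
  ∀ a b : Bool, ∃ ρ : ℝ, 0 < ρ ∧ ρ ≤ 1 / 2 ∧ ∀ F : Set (E N), IsClosed F →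
    cap p (closedBall (0 : E N) 1 ∩ F) (dom a 0 1) ≤ γ * cap p (closedBall (0 : E N) 1) (dom a 0 1) →
    ∃ y : E N, cap p (closedBall y ρ ∩ F) (dom b y ρ) ≤ γ * cap p (closedBall y ρ) (dom b y ρ)

end Pool.Agent.Q94.CI
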