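import Pool.Agent.Q94.CI.Stm

set_option autoImplicit false

open MeasureTheory Metric Set
open scoped ENNReal NNReal Pointwise

namespace Pool.Agent.Q94.CI

theorem energy_nonneg {N : ℕ} (p : ℝ) (φ : E N → ℝ) : 0 ≤ energy p φ :=
  integral_nonneg fun _ => Real.rpow_nonneg (norm_nonneg _) _

theorem cap_bdd {N : ℕ} (p : ℝ) (K U : Set (E N)) :
    BddBelow {e : ℝ | ∃ φ : E N → ℝ, IsTest φ U ∧ (∀ x ∈ K, 1 ≤ φ x) ∧ e = energy p φ} := by
  refine ⟨0, ?_⟩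
  rintro e ⟨φ, -, -, rfl⟩
  exact energy_nonneg p φ

theorem cap_nonneg {N : ℕ} (p : ℝ) (K U : Set (E N)) : 0 ≤ cap p K U := by
  refine Real.sInf_nonneg ?_
  rintro e ⟨φ, -, -, rfl⟩
  exact energy_nonneg p φ

theorem cap_le {N : ℕ} (p : ℝ) {K U : Set (E N)} {φ : E N → ℝ} (hφ : IsTest φ U)
    (hK : ∀ x ∈ K, 1 ≤ φ x) : cap p K U ≤ energy p φ :=
  csInf_le (cap_bdd p K U) ⟨φ, hφ, hK, rfl⟩

theorem IsTest.mono {N : ℕ} {φ : E N → ℝ} {U U' : Set (E N)} (h : IsTest φ U) (hU : U ⊆ U') :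
    IsTest φ U' := ⟨h.1, h.2.1, h.2.2.trans hU⟩

theorem cap_anti {N : ℕ} (p : ℝ) {K U U' : Set (E N)} (hU : U ⊆ U')
    (hne : ∃ φ : E N → ℝ, IsTest φ U ∧ ∀ x ∈ K, 1 ≤ φ x) : cap p K U' ≤ cap p K U := by
  obtain ⟨φ₀, h0, h1⟩ := hne
  refine csInf_le_csInf (cap_bdd p K U') ⟨_, φ₀, h0, h1, rfl⟩ ?_
  rintro e ⟨φ, h2, h3, rfl⟩
  exact ⟨φ, h2.mono hU, h3, rfl⟩

/-- the capacity is monotone in the compact set. -/
theorem cap_mono {N : ℕ} (p : ℝ) {K K' U : Set (E N)} (hK : K ⊆ K')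
    (hne : ∃ φ : E N → ℝ, IsTest φ U ∧ ∀ x ∈ K', 1 ≤ φ x) : cap p K U ≤ cap p K' U := by
  obtain ⟨φ₀, h0, h1⟩ := hne
  refine csInf_le_csInf (cap_bdd p K U) ⟨_, φ₀, h0, h1, rfl⟩ ?_
  rintro e ⟨φ, h2, h3, rfl⟩
  exact ⟨φ, h2, fun x hx => h3 x (hK hx), rfl⟩

/-- the similarity `x ↦ x₀ + r x` as a homeomorphism. -/
noncomputable def simH {N : ℕ} (x₀ : E N) {r : ℝ} (hr : r ≠ 0) : E N ≃ₜ E N :=
  (Homeomorph.smulOfNeZero r hr).trans (Homeomorph.addLeft x₀)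

theorem simH_apply {N : ℕ} (x₀ : E N) {r : ℝ} (hr : r ≠ 0) (x : E N) :
    simH x₀ hr x = x₀ + r • x := rfl

theorem test_comp {N : ℕ} {φ : E N → ℝ} {U : Set (E N)} (h : IsTest φ U) (x₀ : E N) {r : ℝ}
    (hr : r ≠ 0) : IsTest (fun x => φ (x₀ + r • x)) {x | x₀ + r • x ∈ U} := by
  refine ⟨?_, ?_, ?_⟩
  · exact h.1.comp (contDiff_const.add (contDiff_const_smul r))
  · exact h.2.1.comp_homeomorph (simH x₀ hr)
  · intro x hx
    have h1 := tsupport_comp_subset_preimage φ (simH x₀ hr).continuous hx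
    exact h.2.2 h1

theorem energy_comp {N : ℕ} {p : ℝ} {φ : E N → ℝ} (h : ContDiff ℝ (⊤ : ℕ∞) φ) (x₀ : E N) {r : ℝ}
    (hr : 0 < r) : energy p (fun x => φ (x₀ + r • x)) = r ^ (p - (N : ℝ)) * energy p φ := by
  unfold energy
  have h1 : ∀ x : E N, ‖fderiv ℝ (fun x => φ (x₀ + r • x)) x‖ ^ p =
      r ^ p * ‖fderiv ℝ φ (x₀ + r • x)‖ ^ p := by
    intro x
    have h2 : HasFDerivAt (fun x : E N => x₀ + r • x) (r • ContinuousLinearMap.id ℝ (E N)) x :=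
      ((hasFDerivAt_id x).const_smul r).const_add x₀
    have h3 : HasFDerivAt φ (fderiv ℝ φ (x₀ + r • x)) (x₀ + r • x) :=
      (h.differentiable (by simp)).differentiableAt.hasFDerivAt
    have h4 : HasFDerivAt (fun x => φ (x₀ + r • x))
        ((fderiv ℝ φ (x₀ + r • x)).comp (r • ContinuousLinearMap.id ℝ (E N))) x := h3.comp x h2
    rw [h4.fderiv, ContinuousLinearMap.comp_smul, ContinuousLinearMap.comp_id, norm_smul,
      Real.norm_eq_abs, abs_of_pos hr, Real.mul_rpow hr.le (norm_nonneg _)]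
  simp only [h1]
  rw [integral_const_mul]
  have h5 : ∫ x : E N, ‖fderiv ℝ φ (x₀ + r • x)‖ ^ p =
      (r ^ N)⁻¹ * ∫ x : E N, ‖fderiv ℝ φ x‖ ^ p := by
    have h6 := Measure.integral_comp_smul (volume : Measure (E N))
      (fun y => ‖fderiv ℝ φ (x₀ + y)‖ ^ p) r
    rw [finrank_euclideanSpace, Fintype.card_fin, abs_of_nonneg (by positivity), smul_eq_mul] at h6
    rw [h6, integral_add_left_eq_self (fun y => ‖fderiv ℝ φ y‖ ^ p) x₀]
  rw [h5, ← mul_assoc, Real.rpow_sub hr, Real.rpow_natCast, div_eq_mul_inv]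

theorem t1 : S1 := by
  intro N p r x₀ K U hp hr
  have hr0 : r ≠ 0 := hr.ne'
  unfold cap
  rw [← smul_eq_mul, ← Real.sInf_smul_of_nonneg (Real.rpow_nonneg hr.le _)]
  congr 1
  ext e
  constructor
  · rintro ⟨φ, h1, h2, rfl⟩
    refine ⟨energy p (fun x => φ (x₀ + r • x)), ⟨fun x => φ (x₀ + r • x), ?_, ?_, rfl⟩, ?_⟩
    · refine (test_comp h1 x₀ hr0).mono ?_
      rintro x ⟨y, hy, hxy⟩
      have : y = x := by
        have h3 : r • y = r • x := add_left_cancel hxy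
        exact smul_right_injective _ hr0 h3
      exact this ▸ hy
    · intro x hx
      exact h2 _ ⟨x, hx, rfl⟩
    · show r ^ ((N : ℝ) - p) * energy p (fun x => φ (x₀ + r • x)) = energy p φ
      rw [energy_comp h1.1 x₀ hr, ← mul_assoc, ← Real.rpow_add hr]
      simp
  · rintro ⟨_, ⟨φ, h1, h2, rfl⟩, rfl⟩
    refine ⟨fun x => φ (-(r⁻¹ • x₀) + r⁻¹ • x), ?_, ?_, ?_⟩
    · refine (test_comp h1 (-(r⁻¹ • x₀)) (inv_ne_zero hr0)).mono ?_
      intro x hx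
      refine ⟨-(r⁻¹ • x₀) + r⁻¹ • x, hx, ?_⟩
      show x₀ + r • (-(r⁻¹ • x₀) + r⁻¹ • x) = x
      rw [smul_add, smul_neg, smul_inv_smul₀ hr0, smul_inv_smul₀ hr0]
      abel
    · rintro _ ⟨x, hx, rfl⟩
      show 1 ≤ φ (-(r⁻¹ • x₀) + r⁻¹ • (x₀ + r • x))
      have : -(r⁻¹ • x₀) + r⁻¹ • (x₀ + r • x) = x := by
        rw [smul_add, inv_smul_smul₀ hr0]
        abel
      rw [this]
      exact h2 x hx
    · show r ^ ((N : ℝ) - p) * energy p φ = energy p (fun x => φ (-(r⁻¹ • x₀) + r⁻¹ • x))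
      rw [energy_comp h1.1 _ (inv_pos.2 hr), Real.inv_rpow hr.le, ← Real.rpow_neg hr.le, neg_sub]

end Pool.Agent.Q94.CI
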