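import Pool.Agent.Q94.CI.Stm

set_option autoImplicit false

open MeasureTheory Metric Set
open scoped ENNReal NNReal

namespace Pool.Agent.Q94.CI

theorem smul_lint {N : ℕ} (H : E N → ℝ≥0∞) (hH : Measurable H) (a : E N) (t : ℝ)
    (ht : 1 / 2 ≤ t) : ∫⁻ z, H (a + t • z) ≤ ENNReal.ofReal (2 ^ N) * ∫⁻ z, H z := by
  have ht0 : t ≠ 0 := by
    rintro rfl
    norm_num at ht
  have h1 : ∫⁻ z, H (a + t • z) =
      ∫⁻ w, H (a + w) ∂(Measure.map (fun z : E N => t • z) volume) :=
    (lintegral_map (hH.comp (measurable_const_add a)) (measurable_const_smul t)).symm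
  rw [h1, Measure.map_addHaar_smul volume ht0, lintegral_smul_measure,
    lintegral_add_left_eq_self, smul_eq_mul]
  refine mul_le_mul_left (ENNReal.ofReal_le_ofReal ?_) _
  rw [finrank_euclideanSpace, Fintype.card_fin, abs_of_nonneg (by positivity), ← inv_pow]
  refine pow_le_pow_left₀ (by positivity) ?_ N
  rw [inv_le_comm₀ (by linarith) (by norm_num)]
  linarith

/-- Jensen on `[0,1]`. -/
theorem jensen01 {p : ℝ} (hp : 1 ≤ p) (F : ℝ → ℝ) (hF : Continuous F) :
    (∫⁻ t in Ioc (0 : ℝ) 1, ‖F t‖ₑ) ^ p ≤ ∫⁻ t in Ioc (0 : ℝ) 1, ‖F t‖ₑ ^ p := by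
  haveI : IsProbabilityMeasure (volume.restrict (Ioc (0 : ℝ) 1)) :=
    ⟨by rw [Measure.restrict_apply_univ, Real.volume_Ioc]; norm_num⟩
  have h1 := eLpNorm'_le_eLpNorm'_of_exponent_le (μ := volume.restrict (Ioc (0 : ℝ) 1))
    one_pos hp hF.aestronglyMeasurable
  rw [eLpNorm'_eq_lintegral_enorm, eLpNorm'_eq_lintegral_enorm] at h1
  simp only [ENNReal.rpow_one, div_one] at h1
  have h2 := ENNReal.rpow_le_rpow h1 (by linarith : (0 : ℝ) ≤ p)
  rwa [← ENNReal.rpow_mul, one_div, inv_mul_cancel₀ (by linarith), ENNReal.rpow_one] at h2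

theorem pw {N : ℕ} {p d : ℝ} {y : E N} {v : E N → ℝ} (hp : 1 ≤ p) (hd : 0 < d)
    (hv : ContDiff ℝ (⊤ : ℕ∞) v) {x z : E N} (hx : x ∈ ball y d) (hz : z ∈ ball y d) :
    ENNReal.ofReal (|v x - v z| ^ p) ≤ ENNReal.ofReal ((2 * d) ^ p) *
      ∫⁻ t in Ioc (0 : ℝ) 1, (ball y d).indicator
        (fun w => ENNReal.ofReal (‖fderiv ℝ v w‖ ^ p)) (x + t • (z - x)) := by
  have hp0 : 0 ≤ p := by linarith
  set F : ℝ → ℝ := fun t => fderiv ℝ v (x + t • (z - x)) (z - x) with hF
  have hcf : Continuous (fderiv ℝ v) := hv.continuous_fderiv (by simp)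
  have hline : Continuous fun t : ℝ => x + t • (z - x) := by fun_prop
  have hFc : Continuous F := (hcf.comp hline).clm_apply continuous_const
  have h1 : ∫ t in (0 : ℝ)..1, F t = v z - v x := by
    have h2 := intervalIntegral.integral_eq_sub_of_hasDerivAt
      (f := fun t : ℝ => v (x + t • (z - x))) (f' := F) (a := 0) (b := 1) (fun t _ => ?_)
      (hFc.intervalIntegrable _ _)
    · rw [h2]
      simp
    · have h3 : HasDerivAt (fun t : ℝ => x + t • (z - x)) (z - x) t := by
        have := ((hasDerivAt_id t).smul_const (z - x)).const_add x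
        simpa using this
      exact ((hv.differentiable (by simp)).differentiableAt.hasFDerivAt).comp_hasDerivAt t h3
  have h4 : ENNReal.ofReal (|v x - v z| ^ p) = ‖∫ t in Ioc (0 : ℝ) 1, F t‖ₑ ^ p := by
    rw [← intervalIntegral.integral_of_le zero_le_one, h1, ← ofReal_norm_eq_enorm,
      ENNReal.ofReal_rpow_of_nonneg (norm_nonneg _) hp0, Real.norm_eq_abs, abs_sub_comm]
  rw [h4]
  refine (ENNReal.rpow_le_rpow (enorm_integral_le_lintegral_enorm F) hp0).trans ?_
  refine (jensen01 hp F hFc).trans ?_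
  rw [← lintegral_const_mul' _ _ ENNReal.ofReal_ne_top]
  refine setLIntegral_mono' measurableSet_Ioc fun t ht => ?_
  have hmem : x + t • (z - x) ∈ ball y d := by
    have := (convex_ball y d).add_smul_sub_mem hx hz ⟨ht.1.le, ht.2⟩
    exact this
  rw [indicator_of_mem hmem, ← ENNReal.ofReal_mul (Real.rpow_nonneg (by positivity) _),
    ← ofReal_norm_eq_enorm, ENNReal.ofReal_rpow_of_nonneg (norm_nonneg _) hp0,
    ← Real.mul_rpow (by positivity) (norm_nonneg _)]
  refine ENNReal.ofReal_le_ofReal (Real.rpow_le_rpow (norm_nonneg _) ?_ hp0)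
  refine ((fderiv ℝ v (x + t • (z - x))).le_opNorm (z - x)).trans ?_
  rw [mul_comm]
  refine mul_le_mul_of_nonneg_right ?_ (norm_nonneg _)
  rw [← dist_eq_norm]
  have h5 := dist_triangle z y x
  rw [mem_ball] at hx hz
  rw [dist_comm y x] at h5
  linarith

theorem t2 : S2 := by
  intro N p d y v hN hp hd hv
  have hcf : Continuous (fderiv ℝ v) := hv.continuous_fderiv (by simp)
  set D : Set (E N) := ball y d with hD
  set G : E N → ℝ≥0∞ := fun w => ENNReal.ofReal (‖fderiv ℝ v w‖ ^ p) with hGdef
  have hG : Measurable G :=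
    (hcf.norm.rpow_const fun _ => Or.inr (by linarith)).measurable.ennreal_ofReal
  have hGD : Measurable (D.indicator G) := hG.indicator measurableSet_ball
  have hcont : Continuous fun q : (E N × E N) × ℝ => q.1.1 + q.2 • (q.1.2 - q.1.1) := by fun_prop
  have hΦ : Measurable fun q : (E N × E N) × ℝ =>
      D.indicator G (q.1.1 + q.2 • (q.1.2 - q.1.1)) := hGD.comp hcont.measurable
  -- one value of `t`
  have hone : ∀ t : ℝ, ∫⁻ x in D, ∫⁻ z in D, D.indicator G (x + t • (z - x)) ≤
      ENNReal.ofReal (2 ^ N) * volume D * ∫⁻ w, D.indicator G w := by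
    intro t
    rcases le_total (1 / 2) t with ht | ht
    · calc ∫⁻ x in D, ∫⁻ z in D, D.indicator G (x + t • (z - x))
          ≤ ∫⁻ x in D, ENNReal.ofReal (2 ^ N) * ∫⁻ w, D.indicator G w := by
            refine lintegral_mono fun x => ?_
            refine (setLIntegral_le_lintegral _ _).trans ?_
            have := smul_lint (D.indicator G) hGD ((1 - t) • x) t ht
            refine le_trans (le_of_eq ?_) this
            refine lintegral_congr fun z => ?_
            congr 1
            module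
        _ = ENNReal.ofReal (2 ^ N) * volume D * ∫⁻ w, D.indicator G w := by
            rw [lintegral_const, Measure.restrict_apply_univ]
            ring
    · rw [lintegral_lintegral_swap (f := fun x z => D.indicator G (x + t • (z - x)))
        (hGD.comp (by fun_prop : Continuous fun q : E N × E N =>
          q.1 + t • (q.2 - q.1)).measurable).aemeasurable]
      calc ∫⁻ z in D, ∫⁻ x in D, D.indicator G (x + t • (z - x))
          ≤ ∫⁻ z in D, ENNReal.ofReal (2 ^ N) * ∫⁻ w, D.indicator G w := by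
            refine lintegral_mono fun z => ?_
            refine (setLIntegral_le_lintegral _ _).trans ?_
            have := smul_lint (D.indicator G) hGD (t • z) (1 - t) (by linarith)
            refine le_trans (le_of_eq ?_) this
            refine lintegral_congr fun x => ?_
            congr 1
            module
        _ = ENNReal.ofReal (2 ^ N) * volume D * ∫⁻ w, D.indicator G w := by
            rw [lintegral_const, Measure.restrict_apply_univ]
            ring
  have hmz : ∀ x : E N, Measurable fun z : E N =>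
      ∫⁻ t in Ioc (0 : ℝ) 1, D.indicator G (x + t • (z - x)) := by
    intro x
    have : Measurable fun q : E N × ℝ => D.indicator G (x + q.2 • (q.1 - x)) :=
      hGD.comp (by fun_prop : Continuous fun q : E N × ℝ => x + q.2 • (q.1 - x)).measurable
    exact this.lintegral_prod_right'
  have hswap : ∫⁻ x in D, ∫⁻ z in D, ∫⁻ t in Ioc (0 : ℝ) 1, D.indicator G (x + t • (z - x)) =
      ∫⁻ t in Ioc (0 : ℝ) 1, ∫⁻ x in D, ∫⁻ z in D, D.indicator G (x + t • (z - x)) := by
    have e1 : ∀ x : E N, ∫⁻ z in D, ∫⁻ t in Ioc (0 : ℝ) 1, D.indicator G (x + t • (z - x)) =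
        ∫⁻ t in Ioc (0 : ℝ) 1, ∫⁻ z in D, D.indicator G (x + t • (z - x)) := by
      intro x
      exact lintegral_lintegral_swap (f := fun z t => D.indicator G (x + t • (z - x)))
        (hGD.comp (by fun_prop : Continuous fun q : E N × ℝ =>
          x + q.2 • (q.1 - x)).measurable).aemeasurable
    simp only [e1]
    refine lintegral_lintegral_swap
      (f := fun x t => ∫⁻ z in D, D.indicator G (x + t • (z - x))) ?_
    have e2 : Measurable fun q : (E N × ℝ) × E N => D.indicator G (q.1.1 + q.1.2 • (q.2 - q.1.1)) :=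
      hGD.comp (by fun_prop : Continuous fun q : (E N × ℝ) × E N =>
        q.1.1 + q.1.2 • (q.2 - q.1.1)).measurable
    exact (e2.lintegral_prod_right' (ν := volume.restrict D)).aemeasurable
  calc ∫⁻ x in D, ∫⁻ z in D, ENNReal.ofReal (|v x - v z| ^ p)
      ≤ ∫⁻ x in D, ∫⁻ z in D, ENNReal.ofReal ((2 * d) ^ p) *
          ∫⁻ t in Ioc (0 : ℝ) 1, D.indicator G (x + t • (z - x)) := by
        refine setLIntegral_mono' measurableSet_ball fun x hx => ?_
        exact setLIntegral_mono' measurableSet_ball fun z hz => pw hp hd hv hx hz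
    _ = ENNReal.ofReal ((2 * d) ^ p) *
          ∫⁻ x in D, ∫⁻ z in D, ∫⁻ t in Ioc (0 : ℝ) 1, D.indicator G (x + t • (z - x)) := by
        rw [← lintegral_const_mul' _ _ ENNReal.ofReal_ne_top]
        refine lintegral_congr fun x => ?_
        rw [lintegral_const_mul' _ _ ENNReal.ofReal_ne_top]
    _ = ENNReal.ofReal ((2 * d) ^ p) *
          ∫⁻ t in Ioc (0 : ℝ) 1, ∫⁻ x in D, ∫⁻ z in D, D.indicator G (x + t • (z - x)) := by
        rw [hswap]
    _ ≤ ENNReal.ofReal ((2 * d) ^ p) * ∫⁻ t in Ioc (0 : ℝ) 1,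
          ENNReal.ofReal (2 ^ N) * volume D * ∫⁻ w, D.indicator G w := by
        refine mul_le_mul_right (lintegral_mono fun t => hone t) _
    _ = ENNReal.ofReal ((2 : ℝ) ^ (N : ℝ) * (2 * d) ^ p) * volume D * ∫⁻ x in D, G x := by
        rw [lintegral_const, Measure.restrict_apply_univ, Real.volume_Ioc,
          lintegral_indicator measurableSet_ball, Real.rpow_natCast,
          ENNReal.ofReal_mul (by positivity)]
        simp only [sub_zero, ENNReal.ofReal_one, mul_one]
        ring

end Pool.Agent.Q94.CI
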