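import Pool.Agent.Q94.CI.T1

set_option autoImplicit false

open MeasureTheory Metric Set
open scoped ENNReal NNReal

namespace Pool.Agent.Q94.CI

theorem fderiv_sim {N : ℕ} {φ : E N → ℝ} (h : ContDiff ℝ (⊤ : ℕ∞) φ) (x₀ : E N) (r : ℝ)
    (x : E N) : fderiv ℝ (fun x => φ (x₀ + r • x)) x = r • fderiv ℝ φ (x₀ + r • x) := by
  have h2 : HasFDerivAt (fun x : E N => x₀ + r • x) (r • ContinuousLinearMap.id ℝ (E N)) x :=
    ((hasFDerivAt_id x).const_smul r).const_add x₀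
  have h3 : HasFDerivAt φ (fderiv ℝ φ (x₀ + r • x)) (x₀ + r • x) :=
    (h.differentiable (by simp)).differentiableAt.hasFDerivAt
  have h4 : HasFDerivAt (fun x => φ (x₀ + r • x))
      ((fderiv ℝ φ (x₀ + r • x)).comp (r • ContinuousLinearMap.id ℝ (E N))) x := h3.comp x h2
  rw [h4.fderiv, ContinuousLinearMap.comp_smul, ContinuousLinearMap.comp_id]

/-- a cutoff function between two concentric balls. -/
theorem cutoff (N : ℕ) : ∃ C0 : ℝ, 0 ≤ C0 ∧ ∀ (ρ : ℝ) (y : E N), 0 < ρ →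
    ∃ η : E N → ℝ, IsTest η (ball y (2 * ρ)) ∧ (∀ x, 0 ≤ η x) ∧ (∀ x, η x ≤ 1) ∧
      (∀ x ∈ closedBall y ρ, η x = 1) ∧ ∀ x, ‖fderiv ℝ η x‖ ≤ C0 / ρ := by
  let f : ContDiffBump (0 : E N) := ⟨1, 3 / 2, by norm_num, by norm_num⟩
  have hf : IsTest f (ball 0 2) := by
    refine ⟨f.contDiff, f.hasCompactSupport, ?_⟩
    rw [f.tsupport_eq]
    exact closedBall_subset_ball (by norm_num)
  have hcf : Continuous (fderiv ℝ f) := hf.1.continuous_fderiv (by simp)
  obtain ⟨C, hC⟩ := (f.hasCompactSupport.fderiv (𝕜 := ℝ)).exists_bound_of_continuous hcf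
  have hC0 : 0 ≤ C := (norm_nonneg _).trans (hC 0)
  refine ⟨C, hC0, fun ρ y hρ => ?_⟩
  have hρ0 : ρ⁻¹ ≠ 0 := inv_ne_zero hρ.ne'
  have hn : ∀ x : E N, ‖-(ρ⁻¹ • y) + ρ⁻¹ • x‖ = ρ⁻¹ * dist x y := by
    intro x
    have : -(ρ⁻¹ • y) + ρ⁻¹ • x = ρ⁻¹ • (x - y) := by module
    rw [this, norm_smul, Real.norm_eq_abs, abs_of_pos (inv_pos.2 hρ), dist_eq_norm]
  refine ⟨fun x => f (-(ρ⁻¹ • y) + ρ⁻¹ • x), (test_comp hf (-(ρ⁻¹ • y)) hρ0).mono ?_,
    fun x => f.nonneg, fun x => f.le_one, ?_, ?_⟩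
  · intro x hx
    have h1 : ‖-(ρ⁻¹ • y) + ρ⁻¹ • x‖ < 2 := by simpa using hx
    rw [hn, inv_mul_lt_iff₀ hρ] at h1
    rw [mem_ball]
    linarith
  · intro x hx
    refine f.one_of_mem_closedBall ?_
    rw [mem_closedBall, dist_zero_right, hn, inv_mul_le_iff₀ hρ]
    show dist x y ≤ ρ * 1
    rw [mul_one]
    exact hx
  · intro x
    rw [fderiv_sim hf.1, norm_smul, Real.norm_eq_abs, abs_of_pos (inv_pos.2 hρ), div_eq_inv_mul]
    exact mul_le_mul_of_nonneg_left (hC _) (inv_pos.2 hρ).le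

theorem ofReal_energy_le {N : ℕ} {p : ℝ} {φ : E N → ℝ} {D : Set (E N)} (hp : 0 < p)
    (hφ : ContDiff ℝ (⊤ : ℕ∞) φ) (hD : MeasurableSet D) (hs : tsupport φ ⊆ D) :
    ENNReal.ofReal (energy p φ) ≤ ∫⁻ x in D, ‖fderiv ℝ φ x‖ₑ ^ p := by
  have hcf : Continuous (fderiv ℝ φ) := hφ.continuous_fderiv (by simp)
  have hm : AEStronglyMeasurable (fun x => ‖fderiv ℝ φ x‖ ^ p) (volume : Measure (E N)) :=
    (hcf.norm.rpow_const fun _ => Or.inr hp.le).aestronglyMeasurable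
  unfold energy
  rw [integral_eq_lintegral_of_nonneg_ae
    (Filter.Eventually.of_forall fun x => Real.rpow_nonneg (norm_nonneg _) _) hm]
  refine ENNReal.ofReal_toReal_le.trans ?_
  rw [← lintegral_indicator hD]
  refine lintegral_mono fun x => ?_
  by_cases hx : x ∈ D
  · rw [indicator_of_mem hx, ← ofReal_norm_eq_enorm,
      ENNReal.ofReal_rpow_of_nonneg (norm_nonneg _) hp.le]
  · have h1 : fderiv ℝ φ x = 0 := by
      by_contra h
      exact hx (hs (support_fderiv_subset ℝ (Function.mem_support.2 h)))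
    rw [indicator_of_notMem hx]
    simp [h1, Real.zero_rpow hp.ne']

theorem t3 (h2 : S2) : S3 := by
  intro N p hN hp
  obtain ⟨C0, hC0, hcut⟩ := cutoff N
  haveI : Nontrivial (E N) := by
    haveI : Nonempty (Fin N) := ⟨⟨0, hN⟩⟩
    infer_instance
  set b1 : ℝ := (volume (ball (0 : E N) 1)).toReal with hb1
  have hb1pos : 0 < b1 :=
    ENNReal.toReal_pos (measure_ball_pos volume _ one_pos).ne' measure_ball_lt_top.ne
  have hb1' : volume (ball (0 : E N) 1) = ENNReal.ofReal b1 :=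
    (ENNReal.ofReal_toReal measure_ball_lt_top.ne).symm
  have hp0 : 0 < p := by linarith
  refine ⟨2 ^ (p - 1) * ((C0 * 4) ^ p * 2 ^ N + 1) * (2 ^ N * b1), by positivity, ?_⟩
  intro ρ m y K U v hρ hm hK hU hv hvK hcap
  obtain ⟨η, hη, hη0, hη1, hηK, hηd⟩ := hcut ρ y hρ
  set D : Set (E N) := ball y (2 * ρ) with hD
  set I : ℝ≥0∞ := ∫⁻ x in D, ENNReal.ofReal (‖fderiv ℝ v x‖ ^ p) with hI
  have hcv : Continuous (fderiv ℝ v) := hv.continuous_fderiv (by simp)
  have hG : Measurable fun x => ENNReal.ofReal (‖fderiv ℝ v x‖ ^ p) :=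
    (hcv.norm.rpow_const fun _ => Or.inr hp0.le).measurable.ennreal_ofReal
  -- the estimate for one point
  have hz : ∀ z ∈ D, ENNReal.ofReal m * ENNReal.ofReal ((max (v z) 0) ^ p) ≤
      2 ^ (p - 1) * (ENNReal.ofReal ((C0 / ρ) ^ p) *
        (∫⁻ x in D, ENNReal.ofReal (|v z - v x| ^ p)) + I) := by
    intro z hz
    rcases le_or_gt (v z) 0 with hz0 | hz0
    · rw [max_eq_right hz0, Real.zero_rpow hp0.ne', ENNReal.ofReal_zero, mul_zero]
      exact zero_le
    rw [max_eq_left hz0.le]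
    set c := v z with hc
    set ψ : E N → ℝ := fun x => η x * (1 - c⁻¹ * v x) with hψ
    have hψt : IsTest ψ U := by
      refine ⟨hη.1.mul (contDiff_const.sub (contDiff_const.mul hv)), hη.2.1.mul_right, ?_⟩
      exact ((tsupport_mul_subset_left (f := η) (g := fun x => 1 - c⁻¹ * v x)).trans
        hη.2.2).trans hU
    have hψD : tsupport ψ ⊆ D :=
      (tsupport_mul_subset_left (f := η) (g := fun x => 1 - c⁻¹ * v x)).trans hη.2.2
    have hψK : ∀ x ∈ K, 1 ≤ ψ x := by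
      intro x hx
      show 1 ≤ η x * (1 - c⁻¹ * v x)
      rw [hηK x (hK hx), one_mul]
      have : c⁻¹ * v x ≤ 0 := mul_nonpos_of_nonneg_of_nonpos (inv_pos.2 hz0).le (hvK x hx)
      linarith
    have h3 : m ≤ energy p ψ := hcap.trans (cap_le p hψt hψK)
    have h4 : ENNReal.ofReal m ≤ ∫⁻ x in D, ‖fderiv ℝ ψ x‖ₑ ^ p :=
      (ENNReal.ofReal_le_ofReal h3).trans (ofReal_energy_le hp0 hψt.1 measurableSet_ball hψD)
    have hder : ∀ x, c * ‖fderiv ℝ ψ x‖ ≤ C0 / ρ * |c - v x| + ‖fderiv ℝ v x‖ := by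
      intro x
      have e1 : HasFDerivAt η (fderiv ℝ η x) x :=
        (hη.1.differentiable (by simp)).differentiableAt.hasFDerivAt
      have e2 : HasFDerivAt v (fderiv ℝ v x) x :=
        (hv.differentiable (by simp)).differentiableAt.hasFDerivAt
      have e3 : HasFDerivAt (fun x => 1 - c⁻¹ * v x) (-(c⁻¹ • fderiv ℝ v x)) x :=
        (e2.const_mul c⁻¹).const_sub 1
      have e4 : HasFDerivAt ψ (η x • (-(c⁻¹ • fderiv ℝ v x)) +
          (1 - c⁻¹ * v x) • fderiv ℝ η x) x := e1.mul e3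
      rw [e4.fderiv]
      have e5 : ‖η x • (-(c⁻¹ • fderiv ℝ v x)) + (1 - c⁻¹ * v x) • fderiv ℝ η x‖ ≤
          c⁻¹ * ‖fderiv ℝ v x‖ + |1 - c⁻¹ * v x| * (C0 / ρ) := by
        refine (norm_add_le _ _).trans (add_le_add ?_ ?_)
        · rw [norm_smul, norm_neg, norm_smul, Real.norm_eq_abs, Real.norm_eq_abs,
            abs_of_nonneg (hη0 x), abs_of_pos (inv_pos.2 hz0)]
          have : 0 ≤ c⁻¹ * ‖fderiv ℝ v x‖ := by positivity
          nlinarith [hη1 x]
        · rw [norm_smul, Real.norm_eq_abs]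
          exact mul_le_mul_of_nonneg_left (hηd x) (abs_nonneg _)
      refine (mul_le_mul_of_nonneg_left e5 hz0.le).trans (le_of_eq ?_)
      have e6 : c * |1 - c⁻¹ * v x| = |c - v x| := by
        rw [← abs_of_pos hz0, ← abs_mul, abs_of_pos hz0]
        congr 1
        field_simp
      rw [mul_add, ← mul_assoc, mul_inv_cancel₀ hz0.ne', one_mul, ← mul_assoc, e6]
      ring
    have h5 : ∀ x, ENNReal.ofReal (c ^ p) * ‖fderiv ℝ ψ x‖ₑ ^ p ≤
        2 ^ (p - 1) * (ENNReal.ofReal ((C0 / ρ) ^ p) * ENNReal.ofReal (|c - v x| ^ p) +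
          ENNReal.ofReal (‖fderiv ℝ v x‖ ^ p)) := by
      intro x
      have hCρ : 0 ≤ C0 / ρ := by positivity
      rw [← ENNReal.ofReal_rpow_of_nonneg hz0.le hp0.le,
        ← ENNReal.ofReal_rpow_of_nonneg hCρ hp0.le,
        ← ENNReal.ofReal_rpow_of_nonneg (abs_nonneg _) hp0.le,
        ← ENNReal.ofReal_rpow_of_nonneg (norm_nonneg _) hp0.le,
        ← ENNReal.mul_rpow_of_nonneg _ _ hp0.le, ← ENNReal.mul_rpow_of_nonneg _ _ hp0.le,
        ← ENNReal.ofReal_mul hCρ, ← ofReal_norm_eq_enorm, ← ENNReal.ofReal_mul hz0.le]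
      refine le_trans ?_ (ENNReal.rpow_add_le_mul_rpow_add_rpow _ _ hp.le)
      refine ENNReal.rpow_le_rpow ?_ hp0.le
      rw [← ENNReal.ofReal_add (by positivity) (norm_nonneg _)]
      exact ENNReal.ofReal_le_ofReal (hder x)
    calc ENNReal.ofReal m * ENNReal.ofReal (c ^ p)
        ≤ (∫⁻ x in D, ‖fderiv ℝ ψ x‖ₑ ^ p) * ENNReal.ofReal (c ^ p) := mul_le_mul_left h4 _
      _ = ∫⁻ x in D, ENNReal.ofReal (c ^ p) * ‖fderiv ℝ ψ x‖ₑ ^ p := by
          rw [lintegral_const_mul' _ _ ENNReal.ofReal_ne_top, mul_comm]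
      _ ≤ ∫⁻ x in D, 2 ^ (p - 1) * (ENNReal.ofReal ((C0 / ρ) ^ p) *
            ENNReal.ofReal (|c - v x| ^ p) + ENNReal.ofReal (‖fderiv ℝ v x‖ ^ p)) :=
          lintegral_mono fun x => h5 x
      _ = _ := by
          rw [lintegral_const_mul' _ _ (ENNReal.rpow_ne_top_of_nonneg (by linarith)
            (by norm_num)), lintegral_add_right _ hG,
            lintegral_const_mul' _ _ ENNReal.ofReal_ne_top]
  -- integrate
  have hmain : ENNReal.ofReal m * ∫⁻ z in D, ENNReal.ofReal ((max (v z) 0) ^ p) ≤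
      2 ^ (p - 1) * (ENNReal.ofReal ((C0 / ρ) ^ p) *
        (∫⁻ z in D, ∫⁻ x in D, ENNReal.ofReal (|v z - v x| ^ p)) + I * volume D) := by
    rw [← lintegral_const_mul' _ _ ENNReal.ofReal_ne_top]
    refine (setLIntegral_mono' measurableSet_ball hz).trans (le_of_eq ?_)
    rw [lintegral_const_mul' _ _ (ENNReal.rpow_ne_top_of_nonneg (by linarith)
      (by norm_num)), lintegral_add_right _ measurable_const,
      lintegral_const_mul' _ _ ENNReal.ofReal_ne_top, lintegral_const,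
      Measure.restrict_apply_univ]
  have hs2 := h2 N p (2 * ρ) y v hN hp.le (by positivity) hv
  have hvol : volume D = ENNReal.ofReal (2 ^ N * ρ ^ N * b1) := by
    rw [hD, Measure.addHaar_ball_of_pos volume y (by positivity : 0 < 2 * ρ),
      finrank_euclideanSpace, Fintype.card_fin, hb1', ← ENNReal.ofReal_mul (by positivity),
      mul_pow]
  have h2p : (2 : ℝ≥0∞) ^ (p - 1) = ENNReal.ofReal (2 ^ (p - 1)) := by
    rw [← ENNReal.ofReal_rpow_of_nonneg (by norm_num) (by linarith)]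
    norm_num
  calc ENNReal.ofReal m * ∫⁻ z in D, ENNReal.ofReal ((max (v z) 0) ^ p)
      ≤ 2 ^ (p - 1) * (ENNReal.ofReal ((C0 / ρ) ^ p) *
        (ENNReal.ofReal ((2 : ℝ) ^ (N : ℝ) * (2 * (2 * ρ)) ^ p) * volume D * I) +
          I * volume D) := by
        refine hmain.trans ?_
        gcongr
    _ = (ENNReal.ofReal (2 ^ (p - 1)) * ((ENNReal.ofReal ((C0 / ρ) ^ p) *
        ENNReal.ofReal ((2 : ℝ) ^ (N : ℝ) * (2 * (2 * ρ)) ^ p) + 1) *
          ENNReal.ofReal (2 ^ N * ρ ^ N * b1))) * I := by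
        rw [h2p, hvol]
        ring
    _ = ENNReal.ofReal (2 ^ (p - 1) * ((C0 * 4) ^ p * 2 ^ N + 1) * (2 ^ N * b1) *
          ρ ^ (N : ℝ)) * I := by
        congr 1
        rw [← ENNReal.ofReal_mul (by positivity), ← ENNReal.ofReal_one,
          ← ENNReal.ofReal_add (by positivity) zero_le_one, ← ENNReal.ofReal_mul (by positivity),
          ← ENNReal.ofReal_mul (by positivity)]
        congr 1
        rw [Real.rpow_natCast, Real.rpow_natCast]
        have e1 : (C0 / ρ) ^ p * (2 ^ N * (2 * (2 * ρ)) ^ p) = (C0 * 4) ^ p * 2 ^ N := by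
          rw [mul_left_comm, ← Real.mul_rpow (by positivity) (by positivity)]
          have : C0 / ρ * (2 * (2 * ρ)) = C0 * 4 := by
            field_simp
            ring
          rw [this]
          ring
        rw [e1]
        ring

end Pool.Agent.Q94.CI
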