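import Pool.Agent.Q94.CI.Stm

set_option autoImplicit false

open MeasureTheory Metric Set
open scoped ENNReal NNReal

namespace Pool.Agent.Q94.CI

/-- Tonelli for the averages over balls of radius `R` with centre in `B`. -/
theorem swap_ball {N : ℕ} (R : ℝ) (B : Set (E N)) (f : E N → ℝ≥0∞) (hf : Measurable f) :
    ∫⁻ y in B, ∫⁻ x in ball y R, f x = ∫⁻ x, f x * volume (ball x R ∩ B) := by
  have h1 : ∀ y : E N, ∫⁻ x in ball y R, f x =
      ∫⁻ x, ({q : E N × E N | dist q.1 q.2 < R}.indicator (fun q => f q.1)) (x, y) := by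
    intro y
    rw [← lintegral_indicator measurableSet_ball]
    rfl
  have hm : MeasurableSet {q : E N × E N | dist q.1 q.2 < R} :=
    (isOpen_lt (continuous_fst.dist continuous_snd) continuous_const).measurableSet
  have hF : Measurable ({q : E N × E N | dist q.1 q.2 < R}.indicator (fun q => f q.1)) :=
    (hf.comp measurable_fst).indicator hm
  simp only [h1]
  rw [lintegral_lintegral_swap (μ := volume.restrict B) (ν := (volume : Measure (E N)))
    (f := fun y x => ({q : E N × E N | dist q.1 q.2 < R}.indicator (fun q => f q.1)) (x, y))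
    (hF.comp measurable_swap).aemeasurable]
  refine lintegral_congr fun x => ?_
  have h2 : ∀ y : E N, ({q : E N × E N | dist q.1 q.2 < R}.indicator (fun q => f q.1)) (x, y) =
      (ball x R).indicator (fun _ => f x) y := by
    intro y
    by_cases h : dist x y < R
    · rw [indicator_of_mem (by exact h), indicator_of_mem (by rw [mem_ball, dist_comm]; exact h)]
    · rw [indicator_of_notMem (by exact h),
        indicator_of_notMem (by rw [mem_ball, dist_comm]; exact h)]
  simp only [h2]
  rw [lintegral_indicator measurableSet_ball, lintegral_const, Measure.restrict_apply_univ,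
    Measure.restrict_apply measurableSet_ball]

theorem meas_ball {N : ℕ} (R : ℝ) (f : E N → ℝ≥0∞) (hf : Measurable f) :
    Measurable fun y => ∫⁻ x in ball y R, f x := by
  have h1 : ∀ y : E N, ∫⁻ x in ball y R, f x =
      ∫⁻ x, ({q : E N × E N | dist q.1 q.2 < R}.indicator (fun q => f q.1)) (x, y) := by
    intro y
    rw [← lintegral_indicator measurableSet_ball]
    rfl
  have hm : MeasurableSet {q : E N × E N | dist q.1 q.2 < R} :=
    (isOpen_lt (continuous_fst.dist continuous_snd) continuous_const).measurableSet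
  have hF : Measurable ({q : E N × E N | dist q.1 q.2 < R}.indicator (fun q => f q.1)) :=
    (hf.comp measurable_fst).indicator hm
  simp only [h1]
  exact hF.lintegral_prod_left'

theorem t4 : S4 := by
  intro N ρ A f g hN hρ hρ2 hf hg h
  haveI : Nontrivial (E N) := by
    haveI : Nonempty (Fin N) := ⟨⟨0, hN⟩⟩
    infer_instance
  set B : Set (E N) := ball 0 (1 - ρ) with hB
  have hb : volume (ball (0 : E N) (2 * ρ)) = 4 ^ N * volume (ball (0 : E N) (ρ / 2)) := by
    have h1 := Measure.addHaar_ball_mul (volume : Measure (E N)) (0 : E N) (r := 4)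
      (by norm_num) (ρ / 2)
    have h2 : (4 : ℝ) * (ρ / 2) = 2 * ρ := by ring
    rw [h2] at h1
    rw [h1, finrank_euclideanSpace, Fintype.card_fin, ENNReal.ofReal_pow (by norm_num)]
    norm_num
  have hpos : volume (ball (0 : E N) (ρ / 2)) ≠ 0 :=
    (measure_ball_pos volume _ (by positivity)).ne'
  have htop : volume (ball (0 : E N) (ρ / 2)) ≠ ∞ := measure_ball_lt_top.ne
  have hlow : ∀ x ∈ B, volume (ball (0 : E N) (ρ / 2)) ≤ volume (ball x (2 * ρ) ∩ B) := by
    intro x hx
    have hx' : ‖x‖ < 1 - ρ := by simpa [hB] using hx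
    rw [← Measure.addHaar_ball_center volume ((1 - ρ) • x) (ρ / 2)]
    refine measure_mono fun z hz => ?_
    rw [mem_ball, dist_eq_norm] at hz
    have e1 : ‖((1 - ρ) • x : E N)‖ = (1 - ρ) * ‖x‖ := by
      rw [norm_smul, Real.norm_eq_abs, abs_of_nonneg (by linarith)]
    have e2 : ‖((1 - ρ) • x - x : E N)‖ = ρ * ‖x‖ := by
      have : (1 - ρ) • x - x = (-ρ) • x := by module
      rw [this, norm_smul, Real.norm_eq_abs, abs_neg, abs_of_pos hρ]
    have h0 : 0 ≤ ‖x‖ := norm_nonneg x
    refine ⟨?_, ?_⟩
    · rw [mem_ball, dist_eq_norm]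
      have h1 : ‖z - x‖ ≤ ‖z - (1 - ρ) • x‖ + ‖(1 - ρ) • x - x‖ := by
        have := norm_add_le (z - (1 - ρ) • x) ((1 - ρ) • x - x)
        rwa [sub_add_sub_cancel] at this
      rw [e2] at h1
      nlinarith
    · rw [hB, mem_ball, dist_zero_right]
      have h1 : ‖z‖ ≤ ‖z - (1 - ρ) • x‖ + ‖(1 - ρ) • x‖ := by
        have := norm_add_le (z - (1 - ρ) • x) ((1 - ρ) • x)
        rwa [sub_add_cancel] at this
      rw [e1] at h1
      nlinarith
  have key : volume (ball (0 : E N) (ρ / 2)) * ∫⁻ x in B, f x ≤
      volume (ball (0 : E N) (ρ / 2)) * (4 ^ N * A * ∫⁻ x, g x) := by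
    calc volume (ball (0 : E N) (ρ / 2)) * ∫⁻ x in B, f x
        = ∫⁻ x in B, f x * volume (ball (0 : E N) (ρ / 2)) := by
          rw [lintegral_mul_const _ hf, mul_comm]
      _ ≤ ∫⁻ x in B, f x * volume (ball x (2 * ρ) ∩ B) := by
          refine setLIntegral_mono' measurableSet_ball fun x hx => ?_
          exact mul_le_mul_right (hlow x hx) _
      _ ≤ ∫⁻ x, f x * volume (ball x (2 * ρ) ∩ B) := setLIntegral_le_lintegral _ _
      _ = ∫⁻ y in B, ∫⁻ x in ball y (2 * ρ), f x := (swap_ball _ _ f hf).symm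
      _ ≤ ∫⁻ y in B, A * ∫⁻ x in ball y (2 * ρ), g x := by
          refine setLIntegral_mono' measurableSet_ball fun y hy => ?_
          exact h y (by simpa [hB] using hy)
      _ = A * ∫⁻ y in B, ∫⁻ x in ball y (2 * ρ), g x :=
          lintegral_const_mul _ (meas_ball _ g hg)
      _ = A * ∫⁻ x, g x * volume (ball x (2 * ρ) ∩ B) := by rw [swap_ball _ _ g hg]
      _ ≤ A * ∫⁻ x, g x * volume (ball (0 : E N) (2 * ρ)) := by
          refine mul_le_mul_right (lintegral_mono fun x => ?_) _
          refine mul_le_mul_right ?_ _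
          rw [← Measure.addHaar_ball_center volume x (2 * ρ)]
          exact measure_mono inter_subset_left
      _ = volume (ball (0 : E N) (ρ / 2)) * (4 ^ N * A * ∫⁻ x, g x) := by
          rw [lintegral_mul_const _ hg, hb]
          ring
  exact (ENNReal.mul_le_mul_iff_right hpos htop).1 key

end Pool.Agent.Q94.CI
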