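import Pool.Agent.Q94.CI.Stm
import Pool.Agent.Helper481.Polar

set_option autoImplicit false

open MeasureTheory Metric Set Filter Topology
open scoped ENNReal NNReal

namespace Pool.Agent.Q94.CI.T5

lemma elem (p κ : ℝ) (hp : 1 < p) (hκ : 0 < κ) : ∃ C : ℝ, 0 < C ∧ ∀ β : ℝ, 0 ≤ β →
    1 ≤ (1 + κ) * β ^ p + C * (max (1 - β) 0) ^ p := by
  set β₀ : ℝ := (1 + κ)⁻¹ ^ (1 / p) with hβ₀
  have hp0 : 0 < p := by linarith
  have h0 : 0 < β₀ := by positivity
  have h1 : β₀ < 1 := by
    refine Real.rpow_lt_one (by positivity) ?_ (by positivity)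
    exact inv_lt_one_of_one_lt₀ (by linarith)
  have hpow : β₀ ^ p = (1 + κ)⁻¹ := by
    rw [hβ₀, ← Real.rpow_mul (by positivity), one_div, inv_mul_cancel₀ hp0.ne', Real.rpow_one]
  refine ⟨((1 - β₀) ^ p)⁻¹, by
    have : 0 < (1 - β₀) ^ p := Real.rpow_pos_of_pos (by linarith) _
    positivity, fun β hβ => ?_⟩
  have h2 : 0 < (1 - β₀) ^ p := Real.rpow_pos_of_pos (by linarith) _
  have h3 : 0 ≤ (max (1 - β) 0) ^ p := Real.rpow_nonneg (le_max_right _ _) _
  rcases le_total β₀ β with h | h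
  · have h4 : β₀ ^ p ≤ β ^ p := Real.rpow_le_rpow h0.le h hp0.le
    rw [hpow] at h4
    have h5 : 1 ≤ (1 + κ) * β ^ p := by
      have := mul_le_mul_of_nonneg_left h4 (by linarith : 0 ≤ 1 + κ)
      rwa [mul_inv_cancel₀ (by linarith)] at this
    have : 0 ≤ ((1 - β₀) ^ p)⁻¹ * (max (1 - β) 0) ^ p := by positivity
    linarith
  · have h4 : (1 - β₀) ^ p ≤ (max (1 - β) 0) ^ p :=
      Real.rpow_le_rpow (by linarith) (le_max_of_le_left (by linarith)) hp0.le
    have h5 : 1 ≤ ((1 - β₀) ^ p)⁻¹ * (max (1 - β) 0) ^ p := by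
      rw [inv_mul_eq_div, one_le_div h2]
      exact h4
    have : 0 ≤ (1 + κ) * β ^ p := by positivity
    linarith

variable {N : ℕ} {p : ℝ}

/-- the exponent -/
noncomputable def al (N : ℕ) (p : ℝ) : ℝ := ((N : ℝ) - 1) / (p - 1)

lemma al_gt (hp : 1 < p) (hpN : p < N) : 1 < al N p := by
  unfold al
  rw [lt_div_iff₀ (by linarith)]
  linarith

lemma Jlint (hp : 1 < p) (hpN : p < N) {s R : ℝ} (hs : 0 < s) (hR : s < R) :
    ∫⁻ u in Ioc s R, ENNReal.ofReal (u ^ (-al N p)) = ENNReal.ofReal (Jc N p s R) := by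
  have h := al_gt hp hpN
  have h0 : (0 : ℝ) ∉ uIcc s R := by
    rw [uIcc_of_le hR.le]; intro h; exact absurd h.1 (not_le.2 hs)
  have hi : IntervalIntegrable (fun u : ℝ => u ^ (-al N p)) volume s R :=
    intervalIntegral.intervalIntegrable_rpow (Or.inr h0)
  rw [← ofReal_integral_eq_lintegral_ofReal]
  · congr 1
    rw [← intervalIntegral.integral_of_le hR.le, integral_rpow (Or.inr ⟨by linarith, h0⟩)]
    show _ = (s ^ (1 - al N p) - R ^ (1 - al N p)) / (al N p - 1)
    have e : -al N p + 1 = 1 - al N p := by ring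
    rw [e, ← neg_sub (al N p) 1, div_neg, ← neg_div, neg_sub]
  · exact (intervalIntegrable_iff_integrableOn_Ioc_of_le hR.le).1 hi
  · refine (ae_restrict_iff' measurableSet_Ioc).2 (Eventually.of_forall fun u hu => ?_)
    exact Real.rpow_nonneg (hs.trans hu.1).le _

lemma Jc_pos (hp : 1 < p) (hpN : p < N) {s R : ℝ} (hs : 0 < s) (hR : s < R) :
    0 < Jc N p s R := by
  have h := al_gt hp hpN
  show 0 < (s ^ (1 - al N p) - R ^ (1 - al N p)) / (al N p - 1)
  apply div_pos _ (by linarith)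
  have := Real.rpow_lt_rpow_of_neg hs hR (by linarith : 1 - al N p < 0)
  linarith

/-- the radial part of the energy -/
noncomputable def Bt (N : ℕ) (p s R : ℝ) (φ : E N → ℝ) (θ : E N) : ℝ≥0∞ :=
  ∫⁻ u in Ioc s R, ENNReal.ofReal (u ^ (N - 1)) * ENNReal.ofReal (‖fderiv ℝ φ (u • θ)‖ ^ p)

lemma Bt_lt_top (hp : 1 < p) {s R : ℝ} {φ : E N → ℝ}
    (hφ : ContDiff ℝ (⊤ : ℕ∞) φ) (θ : E N) : Bt N p s R φ θ < ⊤ := by
  unfold Bt
  have hc : Continuous (fun u : ℝ => ENNReal.ofReal (u ^ (N - 1)) *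
      ENNReal.ofReal (‖fderiv ℝ φ (u • θ)‖ ^ p)) := by
    have h1 : Continuous (fun u : ℝ => ‖fderiv ℝ φ (u • θ)‖ ^ p) := by
      refine Continuous.rpow_const ?_ (fun _ => Or.inr (by linarith))
      exact ((hφ.continuous_fderiv (by simp)).comp (by fun_prop)).norm
    have h2 : Continuous (fun u : ℝ => ENNReal.ofReal (u ^ (N - 1) * ‖fderiv ℝ φ (u • θ)‖ ^ p)) :=
      ENNReal.continuous_ofReal.comp ((continuous_pow _).mul h1)
    refine Continuous.congr (f := fun u : ℝ => ENNReal.ofReal (u ^ (N - 1)) *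
      ENNReal.ofReal (‖fderiv ℝ φ (u • θ)‖ ^ p)) ?_ (fun _ => rfl)
    refine continuous_iff_continuousAt.2 fun u => ?_
    refine ENNReal.Tendsto.mul ?_ (Or.inr ENNReal.ofReal_ne_top) ?_ (Or.inr ENNReal.ofReal_ne_top)
    · exact (ENNReal.continuous_ofReal.comp (continuous_pow _)).continuousAt
    · exact (ENNReal.continuous_ofReal.comp h1).continuousAt
  obtain ⟨x, -, hx⟩ := (isCompact_Icc (a := s) (b := max s R)).exists_isMaxOn
    ⟨s, left_mem_Icc.2 (le_max_left _ _)⟩ hc.continuousOn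
  set M : ℝ≥0∞ := ENNReal.ofReal (x ^ (N - 1)) * ENNReal.ofReal (‖fderiv ℝ φ (x • θ)‖ ^ p) with hM
  have hMt : M < ⊤ := ENNReal.mul_lt_top ENNReal.ofReal_lt_top ENNReal.ofReal_lt_top
  calc _ ≤ ∫⁻ u in Ioc s R, M := by
        refine setLIntegral_mono' measurableSet_Ioc fun u hu => ?_
        exact hx ⟨hu.1.le, hu.2.trans (le_max_right _ _)⟩
    _ = M * volume (Ioc s R) := by simp
    _ < ⊤ := by
        rw [Real.volume_Ioc]
        exact ENNReal.mul_lt_top hMt ENNReal.ofReal_lt_top

lemma radial (hN : 2 ≤ N) (hp : 1 < p) (hpN : p < N) {s R : ℝ} (hs : 0 < s) (hR : s < R)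
    {φ : E N → ℝ} (hφ : ContDiff ℝ (⊤ : ℕ∞) φ) (hφR : ∀ x, R ≤ ‖x‖ → φ x = 0) {θ : E N}
    (hθ : ‖θ‖ = 1) {r : ℝ} (hr : s ≤ r) (hrR : r ≤ R) :
    φ (r • θ) ≤ (Bt N p s R φ θ).toReal ^ (1 / p) * Jc N p s R ^ ((p - 1) / p) := by
  have hp0 : 0 < p := by linarith
  have hfd : Continuous (fderiv ℝ φ) := hφ.continuous_fderiv (by simp)
  have hder : ∀ u : ℝ, HasDerivAt (fun u : ℝ => φ (u • θ)) (fderiv ℝ φ (u • θ) θ) u := by
    intro u
    have h1 : HasFDerivAt φ (fderiv ℝ φ (u • θ)) (u • θ) :=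
      (hφ.differentiable (by simp) _).hasFDerivAt
    have h2 : HasDerivAt (fun u : ℝ => u • θ) θ u := by
      simpa using (hasDerivAt_id u).smul_const θ
    exact h1.comp_hasDerivAt u h2
  have hcd : Continuous (fun u : ℝ => fderiv ℝ φ (u • θ) θ) :=
    (hfd.comp (by fun_prop)).clm_apply continuous_const
  have hFTC := intervalIntegral.integral_eq_sub_of_hasDerivAt (a := r) (b := R)
    (fun u _ => hder u) (hcd.intervalIntegrable _ _)
  have hR0 : φ (R • θ) = 0 := hφR _ (by
    rw [norm_smul, hθ, mul_one, Real.norm_of_nonneg (hs.trans hR).le])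
  rw [hR0, zero_sub] at hFTC
  have hh : Continuous (fun u : ℝ => ‖fderiv ℝ φ (u • θ)‖) := (hfd.comp (by fun_prop)).norm
  have i1 : φ (r • θ) ≤ ∫ u in Ioc s R, ‖fderiv ℝ φ (u • θ)‖ := by
    have e1 : φ (r • θ) = ∫ u in r..R, -(fderiv ℝ φ (u • θ) θ) := by
      rw [intervalIntegral.integral_neg, hFTC, neg_neg]
    rw [e1]
    calc ∫ u in r..R, -(fderiv ℝ φ (u • θ) θ) ≤ ∫ u in r..R, ‖fderiv ℝ φ (u • θ)‖ := by
          refine intervalIntegral.integral_mono_on hrR (hcd.neg.intervalIntegrable _ _)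
            (hh.intervalIntegrable _ _) fun u _ => ?_
          have := (fderiv ℝ φ (u • θ)).le_opNorm θ
          rw [hθ, mul_one, Real.norm_eq_abs] at this
          exact (neg_le_abs _).trans this
      _ = ∫ u in Ioc r R, ‖fderiv ℝ φ (u • θ)‖ := intervalIntegral.integral_of_le hrR
      _ ≤ ∫ u in Ioc s R, ‖fderiv ℝ φ (u • θ)‖ := by
          refine setIntegral_mono_set ?_ ?_ ?_
          · exact (hh.integrableOn_Icc (a := s) (b := R)).mono_set Ioc_subset_Icc_self
          · exact Eventually.of_forall fun _ => norm_nonneg _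
          · exact (Ioc_subset_Ioc_left hr).eventuallyLE
  -- Hölder
  have hpq : p.HolderConjugate (p / (p - 1)) := Real.HolderConjugate.conjExponent hp
  have i2 : ENNReal.ofReal (∫ u in Ioc s R, ‖fderiv ℝ φ (u • θ)‖) ≤
      Bt N p s R φ θ ^ (1 / p) * (ENNReal.ofReal (Jc N p s R)) ^ (1 / (p / (p - 1))) := by
    rw [ofReal_integral_eq_lintegral_ofReal
      ((hh.integrableOn_Icc (a := s) (b := R)).mono_set Ioc_subset_Icc_self)
      (Eventually.of_forall fun _ => norm_nonneg _)]
    have hm1 : Measurable (fun u : ℝ => ENNReal.ofReal (‖fderiv ℝ φ (u • θ)‖ *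
      u ^ (((N : ℝ) - 1) / p))) := (hh.measurable.mul (measurable_id.pow_const _)).ennreal_ofReal
    have hm2 : Measurable (fun u : ℝ => ENNReal.ofReal (u ^ (-(((N : ℝ) - 1) / p)))) :=
      (measurable_id.pow_const _).ennreal_ofReal
    have hH := ENNReal.lintegral_mul_le_Lp_mul_Lq (volume.restrict (Ioc s R)) hpq
      (f := fun u : ℝ => ENNReal.ofReal (‖fderiv ℝ φ (u • θ)‖ * u ^ (((N : ℝ) - 1) / p)))
      (g := fun u : ℝ => ENNReal.ofReal (u ^ (-(((N : ℝ) - 1) / p))))
      hm1.aemeasurable hm2.aemeasurable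
    have e1 : ∫⁻ u in Ioc s R, ENNReal.ofReal ‖fderiv ℝ φ (u • θ)‖ =
        ∫⁻ u in Ioc s R, ((fun u : ℝ => ENNReal.ofReal (‖fderiv ℝ φ (u • θ)‖ *
          u ^ (((N : ℝ) - 1) / p))) * (fun u : ℝ => ENNReal.ofReal (u ^ (-(((N : ℝ) - 1) / p))))) u := by
      refine setLIntegral_congr_fun measurableSet_Ioc fun u hu => ?_
      have hu0 : 0 < u := hs.trans hu.1
      rw [Pi.mul_apply, ← ENNReal.ofReal_mul (by positivity), mul_assoc, ← Real.rpow_add hu0]
      simp
    rw [e1]
    refine hH.trans (le_of_eq ?_)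
    congr 2
    · unfold Bt
      refine setLIntegral_congr_fun measurableSet_Ioc fun u hu => ?_
      have hu0 : 0 < u := hs.trans hu.1
      rw [ENNReal.ofReal_rpow_of_nonneg (by positivity) hp0.le,
        Real.mul_rpow (norm_nonneg _) (by positivity), ← Real.rpow_mul hu0.le,
        div_mul_cancel₀ _ hp0.ne', mul_comm, ENNReal.ofReal_mul (by positivity)]
      congr 2
      have : ((N - 1 : ℕ) : ℝ) = (N : ℝ) - 1 := by
        rw [Nat.cast_sub (by omega)]; simp
      rw [← this, Real.rpow_natCast]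
    · rw [← Jlint hp hpN hs hR]
      refine setLIntegral_congr_fun measurableSet_Ioc fun u hu => ?_
      have hu0 : 0 < u := hs.trans hu.1
      rw [ENNReal.ofReal_rpow_of_nonneg (by positivity) (by
        have : 0 < p - 1 := by linarith
        positivity), ← Real.rpow_mul hu0.le]
      congr 2
      unfold al
      have : p - 1 ≠ 0 := by linarith
      field_simp
  have hB := Bt_lt_top (s := s) (R := R) hp hφ θ
  have hJ := Jc_pos hp hpN hs hR
  have i3 : ∫ u in Ioc s R, ‖fderiv ℝ φ (u • θ)‖ ≤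
      (Bt N p s R φ θ).toReal ^ (1 / p) * Jc N p s R ^ ((p - 1) / p) := by
    rw [one_div_div, ← ENNReal.ofReal_toReal hB.ne,
      ENNReal.ofReal_rpow_of_nonneg ENNReal.toReal_nonneg (by positivity),
      ENNReal.ofReal_rpow_of_nonneg hJ.le (div_nonneg (by linarith) hp0.le),
      ← ENNReal.ofReal_mul (by positivity)] at i2
    exact (ENNReal.ofReal_le_ofReal_iff (by positivity)).1 i2
  exact i1.trans i3

/-- the inequality on one ray. -/
lemma ray (hN : 2 ≤ N) (hp : 1 < p) (hpN : p < N) {κ C : ℝ} (hκ : 0 < κ) (hC : 0 < C)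
    (hel : ∀ β : ℝ, 0 ≤ β → 1 ≤ (1 + κ) * β ^ p + C * (max (1 - β) 0) ^ p)
    {s t R : ℝ} (hs : 0 < s) (hst : s < t) (htR : t < R)
    {φ : E N → ℝ} (hφ : ContDiff ℝ (⊤ : ℕ∞) φ) (hφR : ∀ x, R ≤ ‖x‖ → φ x = 0) {θ : E N}
    (hθ : ‖θ‖ = 1) :
    1 ≤ ENNReal.ofReal ((1 + κ) * Jc N p s R ^ (p - 1)) * Bt N p s R φ θ +
      ENNReal.ofReal (C / ((t - s) * s ^ ((N : ℝ) - 1))) *
        ∫⁻ r in Ico s t, ENNReal.ofReal (r ^ (N - 1)) *
          ENNReal.ofReal ((max (1 - φ (r • θ)) 0) ^ p) := by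
  have hp0 : 0 < p := by linarith
  have hsR : s < R := hst.trans htR
  have hB := Bt_lt_top (s := s) (R := R) hp hφ θ
  have hJ := Jc_pos hp hpN hs hsR
  set b := (Bt N p s R φ θ).toReal with hb
  have hb0 : 0 ≤ b := ENNReal.toReal_nonneg
  set β : ℝ := b ^ (1 / p) * Jc N p s R ^ ((p - 1) / p) with hβ
  have hβ0 : 0 ≤ β := by positivity
  have hβp : β ^ p = b * Jc N p s R ^ (p - 1) := by
    rw [hβ, Real.mul_rpow (by positivity) (by positivity), ← Real.rpow_mul hb0,
      ← Real.rpow_mul hJ.le, one_div, inv_mul_cancel₀ hp0.ne', Real.rpow_one,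
      div_mul_cancel₀ _ hp0.ne']
  have hsN : 0 < s ^ ((N : ℝ) - 1) := Real.rpow_pos_of_pos hs _
  have hts : 0 < t - s := by linarith
  have hc : ((N - 1 : ℕ) : ℝ) = (N : ℝ) - 1 := by
    rw [Nat.cast_sub (by omega)]; simp
  -- lower bound of the shell integral
  have i1 : ENNReal.ofReal ((t - s) * s ^ ((N : ℝ) - 1) * (max (1 - β) 0) ^ p) ≤
      ∫⁻ r in Ico s t, ENNReal.ofReal (r ^ (N - 1)) *
          ENNReal.ofReal ((max (1 - φ (r • θ)) 0) ^ p) := by
    calc ENNReal.ofReal ((t - s) * s ^ ((N : ℝ) - 1) * (max (1 - β) 0) ^ p)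
        = ∫⁻ r in Ico s t, ENNReal.ofReal (s ^ ((N : ℝ) - 1) * (max (1 - β) 0) ^ p) := by
          rw [lintegral_const, Measure.restrict_apply_univ, Real.volume_Ico,
            ← ENNReal.ofReal_mul (by positivity)]
          congr 1; ring
      _ ≤ _ := by
          refine setLIntegral_mono' measurableSet_Ico fun r hr => ?_
          rw [← ENNReal.ofReal_mul (pow_nonneg (hs.le.trans hr.1) _)]
          apply ENNReal.ofReal_le_ofReal
          have h1 : s ^ ((N : ℝ) - 1) ≤ r ^ (N - 1) := by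
            rw [← hc, Real.rpow_natCast]
            exact pow_le_pow_left₀ hs.le hr.1 _
          have h2 := radial hN hp hpN hs hsR hφ hφR hθ hr.1 (hr.2.le.trans htR.le)
          have h3 : (max (1 - β) 0) ^ p ≤ (max (1 - φ (r • θ)) 0) ^ p := by
            refine Real.rpow_le_rpow (le_max_right _ _) (max_le_max ?_ le_rfl) hp0.le
            linarith
          exact mul_le_mul h1 h3 (by positivity) (pow_nonneg (hs.le.trans hr.1) _)
  have i2 := hel β hβ0
  rw [hβp] at i2
  calc (1 : ℝ≥0∞) = ENNReal.ofReal 1 := by simp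
    _ ≤ ENNReal.ofReal ((1 + κ) * (b * Jc N p s R ^ (p - 1)) + C * (max (1 - β) 0) ^ p) :=
        ENNReal.ofReal_le_ofReal i2
    _ = ENNReal.ofReal ((1 + κ) * Jc N p s R ^ (p - 1)) * Bt N p s R φ θ +
        ENNReal.ofReal (C / ((t - s) * s ^ ((N : ℝ) - 1))) *
          ENNReal.ofReal ((t - s) * s ^ ((N : ℝ) - 1) * (max (1 - β) 0) ^ p) := by
        rw [← ENNReal.ofReal_toReal hB.ne, ← hb, ← ENNReal.ofReal_mul (by positivity),
          ← ENNReal.ofReal_mul (by positivity), ← ENNReal.ofReal_add (by positivity)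
            (by positivity)]
        congr 1
        field_simp
    _ ≤ _ := by gcongr

theorem t5 : S5 := by
  intro N p κ hN hp hpN hκ
  obtain ⟨C, hC, hel⟩ := elem p κ hp hκ
  refine ⟨C, hC, fun s t R φ hs hst htR hφ hφR => ?_⟩
  have : Nonempty (Fin N) := ⟨⟨0, by omega⟩⟩
  have : Nontrivial (E N) := inferInstance
  have hsR : s < R := hst.trans htR
  have hJ := Jc_pos hp hpN hs hsR
  have hp0 : 0 < p := by linarith
  have hfd : Continuous (fderiv ℝ φ) := hφ.continuous_fderiv (by simp)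
  -- the two functions
  set g : E N → ℝ≥0∞ := fun x => ENNReal.ofReal (‖fderiv ℝ φ x‖ ^ p) with hg
  set f : E N → ℝ≥0∞ := (ball (0 : E N) t \ ball 0 s).indicator
    (fun x => ENNReal.ofReal ((max (1 - φ x) 0) ^ p)) with hf
  have hgm : Measurable g := ((hfd.measurable.norm).pow_const _).ennreal_ofReal
  have hms : MeasurableSet (ball (0 : E N) t \ ball 0 s) :=
    measurableSet_ball.diff measurableSet_ball
  have hf0 : Measurable (fun x : E N => ENNReal.ofReal ((max (1 - φ x) 0) ^ p)) :=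
    (((measurable_const.sub hφ.continuous.measurable).max measurable_const).pow_const _).ennreal_ofReal
  have hfm : Measurable f := hf0.indicator hms
  have hfin : Module.finrank ℝ (E N) = N := finrank_euclideanSpace_fin
  have pg := Pool.Agent.Helper481.lintegral_polar (volume : Measure (E N)) g hgm
  have pf := Pool.Agent.Helper481.lintegral_polar (volume : Measure (E N)) f hfm
  rw [hfin] at pg pf
  have key : (volume : Measure (E N)).toSphere univ ≤
      ENNReal.ofReal ((1 + κ) * Jc N p s R ^ (p - 1)) * (∫⁻ x, g x) +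
      ENNReal.ofReal (C / ((t - s) * s ^ ((N : ℝ) - 1))) * (∫⁻ x, f x) := by
    calc (volume : Measure (E N)).toSphere univ
        = ∫⁻ θ : sphere (0 : E N) 1, 1 ∂(volume : Measure (E N)).toSphere := by simp
      _ ≤ ∫⁻ θ : sphere (0 : E N) 1,
          (ENNReal.ofReal ((1 + κ) * Jc N p s R ^ (p - 1)) *
            (∫⁻ r in Ioi (0 : ℝ), ENNReal.ofReal (r ^ (N - 1)) * g (r • (θ : E N))) +
          ENNReal.ofReal (C / ((t - s) * s ^ ((N : ℝ) - 1))) *
            ∫⁻ r in Ioi (0 : ℝ), ENNReal.ofReal (r ^ (N - 1)) * f (r • (θ : E N)))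
              ∂(volume : Measure (E N)).toSphere := by
          refine lintegral_mono fun θ => ?_
          have hθ : ‖(θ : E N)‖ = 1 := by simp
          refine (ray hN hp hpN hκ hC hel hs hst htR hφ hφR hθ).trans ?_
          refine add_le_add (mul_le_mul_right ?_ _) (mul_le_mul_right ?_ _)
          · exact lintegral_mono_set (fun u hu => hs.trans hu.1)
          · calc ∫⁻ r in Ico s t, ENNReal.ofReal (r ^ (N - 1)) *
                  ENNReal.ofReal ((max (1 - φ (r • (θ : E N))) 0) ^ p)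
                = ∫⁻ r in Ico s t, ENNReal.ofReal (r ^ (N - 1)) * f (r • (θ : E N)) := by
                  refine setLIntegral_congr_fun measurableSet_Ico fun r hr => ?_
                  have hr0 : 0 < r := lt_of_lt_of_le hs hr.1
                  have hmem : r • (θ : E N) ∈ ball (0 : E N) t \ ball 0 s := by
                    constructor
                    · rw [mem_ball_zero_iff, norm_smul, hθ, mul_one, Real.norm_of_nonneg hr0.le]
                      exact hr.2
                    · rw [mem_ball_zero_iff, norm_smul, hθ, mul_one, Real.norm_of_nonneg hr0.le]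
                      exact not_lt.2 hr.1
                  rw [hf, indicator_of_mem hmem]
              _ ≤ _ := lintegral_mono_set (fun u hu => lt_of_lt_of_le hs hu.1)
      _ = _ := by
          have hmeas : ∀ F : E N → ℝ≥0∞, Measurable F → Measurable (fun θ : sphere (0 : E N) 1 =>
              ∫⁻ r in Ioi (0 : ℝ), ENNReal.ofReal (r ^ (N - 1)) * F (r • (θ : E N))) := by
            intro F hF
            refine Measurable.lintegral_prod_right' (f := fun q : sphere (0 : E N) 1 × ℝ =>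
              ENNReal.ofReal (q.2 ^ (N - 1)) * F (q.2 • (q.1 : E N))) ?_
            exact ((measurable_snd.pow_const _).ennreal_ofReal).mul
              (hF.comp (measurable_snd.smul (measurable_subtype_coe.comp measurable_fst)))
          rw [lintegral_add_left ((hmeas g hgm).const_mul _),
            lintegral_const_mul _ (hmeas g hgm), lintegral_const_mul _ (hmeas f hfm), ← pg, ← pf]
  have hcs : HasCompactSupport φ := by
    refine HasCompactSupport.intro (isCompact_closedBall (0 : E N) R) fun x hx => ?_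
    rw [mem_closedBall_zero_iff, not_le] at hx
    exact hφR x hx.le
  have eg : ∫⁻ x, g x = ENNReal.ofReal (energy p φ) := by
    unfold energy
    rw [ofReal_integral_eq_lintegral_ofReal]
    · have hc : Continuous (fun x => ‖fderiv ℝ φ x‖ ^ p) :=
        (hfd.norm).rpow_const (fun _ => Or.inr (by linarith))
      refine hc.integrable_of_hasCompactSupport ?_
      refine (hcs.fderiv ℝ).comp_left (g := fun L : E N →L[ℝ] ℝ => ‖L‖ ^ p) ?_
      simp only [norm_zero]
      exact Real.zero_rpow (by linarith)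
    · exact Eventually.of_forall fun x => Real.rpow_nonneg (norm_nonneg _) _
  have ef : ∫⁻ x, f x = ENNReal.ofReal
      (∫ x in ball (0 : E N) t \ ball 0 s, (max (1 - φ x) 0) ^ p) := by
    rw [hf, lintegral_indicator hms, ofReal_integral_eq_lintegral_ofReal]
    · have hc : Continuous (fun x => (max (1 - φ x) 0) ^ p) :=
        ((continuous_const.sub hφ.continuous).max continuous_const).rpow_const
          (fun _ => Or.inr (by linarith))
      exact (hc.continuousOn.integrableOn_compact (isCompact_closedBall (0 : E N) t)).mono_set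
        (sdiff_subset.trans ball_subset_closedBall)
    · exact Eventually.of_forall fun x => Real.rpow_nonneg (le_max_right _ _) _
  have hE0 : 0 ≤ energy p φ := integral_nonneg fun _ => Real.rpow_nonneg (norm_nonneg _) _
  have hF0 : 0 ≤ ∫ x in ball (0 : E N) t \ ball 0 s, (max (1 - φ x) 0) ^ p :=
    integral_nonneg fun _ => Real.rpow_nonneg (le_max_right _ _) _
  have hts : 0 < t - s := by linarith
  have hsN : 0 < s ^ ((N : ℝ) - 1) := Real.rpow_pos_of_pos hs _
  rw [eg, ef, ← ENNReal.ofReal_mul (by positivity), ← ENNReal.ofReal_mul (by positivity),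
    ← ENNReal.ofReal_add (by positivity) (by positivity)] at key
  exact ENNReal.toReal_le_of_le_ofReal (by positivity) key

end Pool.Agent.Q94.CI.T5
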