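import Pool.Agent.Q94.CI.Stm

set_option autoImplicit false

open MeasureTheory Metric Set Filter Topology
open scoped ENNReal NNReal

namespace Pool.Agent.Q94.CI.T6

/-- the exponent -/
noncomputable def al (N : ℕ) (p : ℝ) : ℝ := ((N : ℝ) - 1) / (p - 1)

lemma al_gt {N : ℕ} {p : ℝ} (hp : 1 < p) (hpN : p < N) : 1 < al N p := by
  unfold al
  rw [lt_div_iff₀ (by linarith)]
  linarith

/-- the cutoff -/
noncomputable def ch (δ R u : ℝ) : ℝ :=
  Real.smoothTransition ((u - 1 - δ) / δ) * Real.smoothTransition ((R - δ - u) / δ)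

lemma ch_smooth (δ R : ℝ) : ContDiff ℝ (⊤ : ℕ∞) (ch δ R) := by
  unfold ch
  refine ContDiff.mul ?_ ?_
  · exact Real.smoothTransition.contDiff.comp
      ((((contDiff_id).sub contDiff_const).sub contDiff_const).div_const _)
  · exact Real.smoothTransition.contDiff.comp
      ((contDiff_const.sub contDiff_id).div_const _)

lemma ch_nonneg (δ R u : ℝ) : 0 ≤ ch δ R u :=
  mul_nonneg (Real.smoothTransition.nonneg _) (Real.smoothTransition.nonneg _)

lemma ch_le_one (δ R u : ℝ) : ch δ R u ≤ 1 :=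
  mul_le_one₀ (Real.smoothTransition.le_one _) (Real.smoothTransition.nonneg _)
    (Real.smoothTransition.le_one _)

lemma ch_zero_left {δ R u : ℝ} (hδ : 0 < δ) (hu : u ≤ 1 + δ) : ch δ R u = 0 := by
  unfold ch
  rw [Real.smoothTransition.zero_of_nonpos, zero_mul]
  exact div_nonpos_of_nonpos_of_nonneg (by linarith) hδ.le

lemma ch_zero_right {δ R u : ℝ} (hδ : 0 < δ) (hu : R - δ ≤ u) : ch δ R u = 0 := by
  unfold ch
  rw [Real.smoothTransition.zero_of_nonpos (x := (R - δ - u) / δ), mul_zero]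
  exact div_nonpos_of_nonpos_of_nonneg (by linarith) hδ.le

lemma ch_one {δ R u : ℝ} (hδ : 0 < δ) (hu : 1 + 2 * δ ≤ u) (hu' : u ≤ R - 2 * δ) :
    ch δ R u = 1 := by
  unfold ch
  rw [Real.smoothTransition.one_of_one_le, Real.smoothTransition.one_of_one_le, mul_one]
  · rw [le_div_iff₀ hδ]; linarith
  · rw [le_div_iff₀ hδ]; linarith

/-- minus the derivative of the profile, up to the constant -/
noncomputable def h (N : ℕ) (p δ R u : ℝ) : ℝ := ch δ R u * u ^ (-al N p)

variable {N : ℕ} {p δ R : ℝ}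

lemma h_smooth (hδ : 0 < δ) : ContDiff ℝ (⊤ : ℕ∞) (h N p δ R) := by
  rw [contDiff_iff_contDiffAt]
  intro u
  rcases lt_or_ge u 1 with hu | hu
  · have : h N p δ R =ᶠ[𝓝 u] fun _ => 0 := by
      filter_upwards [Iio_mem_nhds hu] with w hw
      unfold h
      rw [ch_zero_left hδ (by have : w < 1 := hw; linarith), zero_mul]
    exact contDiffAt_const.congr_of_eventuallyEq this
  · exact ((ch_smooth δ R).contDiffAt).mul
      (contDiffAt_id.rpow_const_of_ne (by show u ≠ 0; linarith))

lemma h_nonneg (hδ : 0 < δ) (u : ℝ) : 0 ≤ h N p δ R u := by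
  rcases lt_or_ge u 1 with hu | hu
  · unfold h
    rw [ch_zero_left hδ (by linarith), zero_mul]
  · exact mul_nonneg (ch_nonneg _ _ _) (Real.rpow_nonneg (by linarith) _)

lemma h_zero (hδ : 0 < δ) {u : ℝ} (hu : u ≤ 1 + δ ∨ R - δ ≤ u) : h N p δ R u = 0 := by
  unfold h
  rcases hu with hu | hu
  · rw [ch_zero_left hδ hu, zero_mul]
  · rw [ch_zero_right hδ hu, zero_mul]

lemma h_cs (hδ : 0 < δ) : HasCompactSupport (h N p δ R) := by
  refine HasCompactSupport.intro (isCompact_Icc (a := 1) (b := R)) fun u hu => h_zero hδ ?_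
  rw [mem_Icc, not_and_or, not_le, not_le] at hu
  rcases hu with hu | hu
  · left; linarith
  · right; linarith

/-- the total integral -/
noncomputable def A (N : ℕ) (p δ R : ℝ) : ℝ := ∫ u in (0 : ℝ)..R, h N p δ R u

/-- the profile -/
noncomputable def g (N : ℕ) (p δ R r : ℝ) : ℝ := 1 - (A N p δ R)⁻¹ * ∫ u in (0 : ℝ)..r, h N p δ R u

lemma g_deriv (hδ : 0 < δ) (r : ℝ) :
    HasDerivAt (g N p δ R) (-((A N p δ R)⁻¹ * h N p δ R r)) r := by
  have hc : Continuous (h N p δ R) := (h_smooth hδ).continuous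
  have h1 := intervalIntegral.integral_hasDerivAt_right (hc.intervalIntegrable 0 r)
    (hc.stronglyMeasurableAtFilter _ _) hc.continuousAt
  exact (h1.const_mul (A N p δ R)⁻¹).const_sub 1

lemma g_smooth (hδ : 0 < δ) : ContDiff ℝ (⊤ : ℕ∞) (g N p δ R) := by
  rw [contDiff_infty_iff_deriv]
  refine ⟨fun r => (g_deriv hδ r).differentiableAt, ?_⟩
  have : deriv (g N p δ R) = fun r => -((A N p δ R)⁻¹ * h N p δ R r) :=
    funext fun r => (g_deriv hδ r).deriv
  rw [this]
  exact (contDiff_const.mul (h_smooth hδ)).neg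

lemma g_one (hδ : 0 < δ) {r : ℝ} (hr0 : 0 ≤ r) (hr : r ≤ 1 + δ) : g N p δ R r = 1 := by
  unfold g
  have : ∫ u in (0 : ℝ)..r, h N p δ R u = 0 := by
    rw [intervalIntegral.integral_congr (g := fun _ => (0 : ℝ))]
    · simp
    · intro u hu
      rw [uIcc_of_le hr0] at hu
      exact h_zero hδ (Or.inl (by linarith [hu.2]))
  rw [this]; simp

lemma g_zero (hδ : 0 < δ) (hA : A N p δ R ≠ 0) {r : ℝ} (hr : R - δ ≤ r) : g N p δ R r = 0 := by
  unfold g
  have hc : Continuous (h N p δ R) := (h_smooth hδ).continuous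
  have : ∫ u in (0 : ℝ)..r, h N p δ R u = A N p δ R := by
    unfold A
    rw [← sub_eq_zero, intervalIntegral.integral_interval_sub_left
      (hc.intervalIntegrable _ _) (hc.intervalIntegrable _ _)]
    rw [intervalIntegral.integral_congr (g := fun _ => (0 : ℝ))]
    · simp
    · intro u hu
      refine h_zero hδ (Or.inr ?_)
      have := hu.1
      have h2 : R - δ ≤ min R r := le_min (by linarith) hr
      exact h2.trans this
  rw [this, inv_mul_cancel₀ hA, sub_self]

/-- the radial test function -/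
noncomputable def ph (N : ℕ) (p δ R : ℝ) (x : E N) : ℝ := g N p δ R ‖x‖

lemma ph_smooth (hδ : 0 < δ) : ContDiff ℝ (⊤ : ℕ∞) (ph N p δ R) := by
  rw [contDiff_iff_contDiffAt]
  intro x
  by_cases hx : x = 0
  · have : ph N p δ R =ᶠ[𝓝 x] fun _ => 1 := by
      subst hx
      filter_upwards [ball_mem_nhds (0 : E N) one_pos] with w hw
      rw [mem_ball_zero_iff] at hw
      exact g_one hδ (norm_nonneg _) (by linarith)
    exact contDiffAt_const.congr_of_eventuallyEq this
  · exact (g_smooth hδ).contDiffAt.comp x (contDiffAt_norm ℝ hx)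

lemma ph_fderiv (hδ : 0 < δ) (hA : 0 < A N p δ R) (x : E N) :
    ‖fderiv ℝ (ph N p δ R) x‖ ≤ (A N p δ R)⁻¹ * h N p δ R ‖x‖ := by
  have hpos : 0 ≤ (A N p δ R)⁻¹ * h N p δ R ‖x‖ := mul_nonneg (inv_pos.2 hA).le (h_nonneg hδ _)
  by_cases hx : x = 0
  · have : ph N p δ R =ᶠ[𝓝 x] fun _ => 1 := by
      subst hx
      filter_upwards [ball_mem_nhds (0 : E N) one_pos] with w hw
      rw [mem_ball_zero_iff] at hw
      exact g_one hδ (norm_nonneg _) (by linarith)
    rw [this.fderiv_eq]
    simpa using hpos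
  · have h1 : DifferentiableAt ℝ (fun x : E N => ‖x‖) x :=
      (contDiffAt_norm ℝ hx (n := 1)).differentiableAt (by simp)
    have h2 := (g_deriv (N := N) (p := p) (R := R) hδ ‖x‖).comp_hasFDerivAt x h1.hasFDerivAt
    have h3 : fderiv ℝ (ph N p δ R) x =
        (-((A N p δ R)⁻¹ * h N p δ R ‖x‖)) • fderiv ℝ (fun x : E N => ‖x‖) x := h2.fderiv
    rw [h3, norm_smul, norm_neg, Real.norm_of_nonneg hpos]
    have h4 : ‖fderiv ℝ (fun x : E N => ‖x‖) x‖ ≤ 1 := by
      have := norm_fderiv_le_of_lipschitz ℝ (lipschitzWith_one_norm (E := E N)) (x₀ := x)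
      simpa using this
    calc _ ≤ (A N p δ R)⁻¹ * h N p δ R ‖x‖ * 1 := mul_le_mul_of_nonneg_left h4 hpos
      _ = _ := mul_one _

lemma ph_test (hδ : 0 < δ) (hA : 0 < A N p δ R) : IsTest (ph N p δ R) (ball 0 R) := by
  have hsupp : ∀ x, x ∉ closedBall (0 : E N) (R - δ) → ph N p δ R x = 0 := by
    intro x hx
    rw [mem_closedBall_zero_iff, not_le] at hx
    exact g_zero hδ hA.ne' hx.le
  refine ⟨ph_smooth hδ, HasCompactSupport.intro (isCompact_closedBall 0 (R - δ)) hsupp, ?_⟩
  have h1 : tsupport (ph N p δ R) ⊆ closedBall 0 (R - δ) := by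
    refine closure_minimal (fun x hx => ?_) isClosed_closedBall
    by_contra hne
    exact hx (hsupp x hne)
  exact h1.trans (closedBall_subset_ball (by linarith))

lemma ph_one (hδ : 0 < δ) (x : E N) (hx : x ∈ closedBall (0 : E N) 1) : 1 ≤ ph N p δ R x := by
  rw [mem_closedBall_zero_iff] at hx
  exact (g_one hδ (norm_nonneg _) (by linarith)).ge

lemma sg_eq (hN : 2 ≤ N) : sg N = N * (volume (ball (0 : E N) 1)).toReal := by
  have : Nonempty (Fin N) := ⟨⟨0, by omega⟩⟩
  have : Nontrivial (E N) := inferInstance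
  unfold sg
  rw [Measure.toSphere_apply_univ, finrank_euclideanSpace_fin, ENNReal.toReal_mul]
  simp

lemma A_Ioi (hδ : 0 < δ) (hR : 1 < R) : A N p δ R = ∫ u in Ioi (0 : ℝ), h N p δ R u := by
  unfold A
  rw [intervalIntegral.integral_of_le (by linarith)]
  refine (setIntegral_eq_of_subset_of_forall_sdiff_eq_zero measurableSet_Ioi
    (fun u hu => hu.1) fun u hu => h_zero hδ (Or.inr ?_)).symm
  have h1 : u ∈ Ioi (0 : ℝ) := hu.1
  have h2 : u ∉ Ioc 0 R := hu.2
  rw [mem_Ioc, not_and_or, not_lt, not_le] at h2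
  rcases h2 with h2 | h2
  · exact absurd h1 (not_lt.2 h2)
  · linarith

lemma ph_energy (hN : 2 ≤ N) (hp : 1 < p) (hδ : 0 < δ) (hR : 1 < R)
    (hA : 0 < A N p δ R) : energy p (ph N p δ R) ≤ sg N * A N p δ R ^ (1 - p) := by
  have : Nonempty (Fin N) := ⟨⟨0, by omega⟩⟩
  have : Nontrivial (E N) := inferInstance
  have hp0 : 0 < p := by linarith
  have hc : Continuous (h N p δ R) := (h_smooth hδ).continuous
  have hcs : HasCompactSupport (h N p δ R) := h_cs hδ
  set q : ℝ → ℝ := fun r => ((A N p δ R)⁻¹ * h N p δ R r) ^ p with hq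
  have hqc : Continuous q := (continuous_const.mul hc).rpow_const (fun _ => Or.inr hp0.le)
  have h1 : energy p (ph N p δ R) ≤ ∫ x : E N, q ‖x‖ := by
    unfold energy
    refine integral_mono_of_nonneg (Eventually.of_forall fun _ => Real.rpow_nonneg (norm_nonneg _) _)
      ?_ (Eventually.of_forall fun x => ?_)
    · refine (hqc.comp continuous_norm).integrable_of_hasCompactSupport ?_
      refine HasCompactSupport.intro (isCompact_closedBall (0 : E N) R) fun x hx => ?_
      rw [mem_closedBall_zero_iff, not_le] at hx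
      show q ‖x‖ = 0
      rw [hq]
      show ((A N p δ R)⁻¹ * h N p δ R ‖x‖) ^ p = 0
      rw [h_zero hδ (Or.inr (by linarith)), mul_zero, Real.zero_rpow hp0.ne']
    · exact Real.rpow_le_rpow (norm_nonneg _) (ph_fderiv hδ hA x) hp0.le
  have h2 : ∫ x : E N, q ‖x‖ = sg N * ∫ r in Ioi (0 : ℝ), r ^ (N - 1) * q r := by
    have := integral_fun_norm_addHaar (volume : Measure (E N)) q
    rw [finrank_euclideanSpace_fin] at this
    rw [this, sg_eq hN]
    simp only [smul_eq_mul, nsmul_eq_mul, measureReal_def]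
    ring
  have hcast : ((N - 1 : ℕ) : ℝ) = (N : ℝ) - 1 := by
    rw [Nat.cast_sub (by omega)]; simp
  have h3 : ∫ r in Ioi (0 : ℝ), r ^ (N - 1) * q r ≤ A N p δ R ^ (1 - p) := by
    calc ∫ r in Ioi (0 : ℝ), r ^ (N - 1) * q r
        ≤ ∫ r in Ioi (0 : ℝ), A N p δ R ^ (-p) * h N p δ R r := by
          refine setIntegral_mono_on ?_ ?_ measurableSet_Ioi fun r hr => ?_
          · have hcc : Continuous (fun r : ℝ => r ^ (N - 1) * q r) := (continuous_pow _).mul hqc
            refine (hcc.integrable_of_hasCompactSupport ?_).integrableOn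
            refine HasCompactSupport.intro (isCompact_Icc (a := 1) (b := R)) fun u hu => ?_
            show u ^ (N - 1) * ((A N p δ R)⁻¹ * h N p δ R u) ^ p = 0
            rw [h_zero hδ ?_, mul_zero, Real.zero_rpow hp0.ne', mul_zero]
            rw [mem_Icc, not_and_or, not_le, not_le] at hu
            rcases hu with hu | hu
            · left; linarith
            · right; linarith
          · exact ((hc.integrable_of_hasCompactSupport hcs).const_mul _).integrableOn
          · have hr0 : 0 < r := hr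
            have hch0 := ch_nonneg δ R r
            show r ^ (N - 1) * ((A N p δ R)⁻¹ * h N p δ R r) ^ p ≤ _
            have e1 : r ^ (N - 1) * ((A N p δ R)⁻¹ * h N p δ R r) ^ p =
                A N p δ R ^ (-p) * (ch δ R r ^ p * r ^ (-al N p)) := by
              unfold h
              rw [Real.mul_rpow (inv_pos.2 hA).le (by positivity), Real.mul_rpow hch0 (by positivity),
                ← Real.rpow_mul hr0.le, Real.inv_rpow hA.le, ← Real.rpow_neg hA.le,
                ← Real.rpow_natCast r (N - 1), hcast]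
              have e2 : r ^ ((N : ℝ) - 1) * r ^ (-al N p * p) = r ^ (-al N p) := by
                rw [← Real.rpow_add hr0]
                congr 1
                unfold al
                have : p - 1 ≠ 0 := by linarith
                field_simp
                ring
              calc _ = A N p δ R ^ (-p) * (ch δ R r ^ p * (r ^ ((N : ℝ) - 1) * r ^ (-al N p * p))) := by ring
                _ = _ := by rw [e2]
            rw [e1]
            unfold h
            refine mul_le_mul_of_nonneg_left (mul_le_mul_of_nonneg_right ?_ (by positivity))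
              (by positivity)
            calc ch δ R r ^ p ≤ ch δ R r ^ (1 : ℝ) :=
                  Real.rpow_le_rpow_of_exponent_ge_of_imp hch0 (ch_le_one _ _ _) hp.le
                    (fun _ h1 => absurd h1 hp0.ne')
              _ = ch δ R r := Real.rpow_one _
      _ = A N p δ R ^ (-p) * A N p δ R := by rw [integral_const_mul, ← A_Ioi hδ hR]
      _ = A N p δ R ^ (1 - p) := by
          rw [← Real.rpow_add_one hA.ne']
          congr 1; ring
  calc _ ≤ _ := h1
    _ = _ := h2
    _ ≤ _ := mul_le_mul_of_nonneg_left h3 (by rw [sg_eq hN]; positivity)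

lemma Jc_eq (s R : ℝ) : Jc N p s R = (s ^ (1 - al N p) - R ^ (1 - al N p)) / (al N p - 1) := rfl

lemma A_lower (hp : 1 < p) (hpN : p < N) (hδ : 0 < δ) (hδR : 1 + 2 * δ < R - 2 * δ) :
    Jc N p (1 + 2 * δ) (R - 2 * δ) ≤ A N p δ R := by
  have hal := al_gt hp hpN
  have hc : Continuous (h N p δ R) := (h_smooth hδ).continuous
  have h0 : (0 : ℝ) ∉ uIcc (1 + 2 * δ) (R - 2 * δ) := by
    rw [uIcc_of_le hδR.le]; intro h; linarith [h.1]
  have e1 : Jc N p (1 + 2 * δ) (R - 2 * δ) =
      ∫ u in (1 + 2 * δ)..(R - 2 * δ), h N p δ R u := by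
    have e2 : ∫ u in (1 + 2 * δ)..(R - 2 * δ), h N p δ R u =
        ∫ u in (1 + 2 * δ)..(R - 2 * δ), u ^ (-al N p) := by
      refine intervalIntegral.integral_congr fun u hu => ?_
      rw [uIcc_of_le hδR.le] at hu
      show ch δ R u * u ^ (-al N p) = u ^ (-al N p)
      rw [ch_one hδ hu.1 hu.2, one_mul]
    rw [e2, integral_rpow (Or.inr ⟨by linarith, h0⟩), Jc_eq]
    have e : -al N p + 1 = 1 - al N p := by ring
    rw [e, ← neg_sub (al N p) 1, div_neg, ← neg_div, neg_sub, neg_sub]
  rw [e1]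
  unfold A
  rw [intervalIntegral.integral_of_le hδR.le, intervalIntegral.integral_of_le (by linarith)]
  refine setIntegral_mono_set ?_ ?_ ?_
  · exact (hc.integrableOn_Icc (a := 0) (b := R)).mono_set Ioc_subset_Icc_self
  · exact Eventually.of_forall fun u => h_nonneg hδ u
  · exact (Ioc_subset_Ioc (by linarith) (by linarith)).eventuallyLE

theorem t6 : S6 := by
  intro N p κ R hN hp hpN hκ hκ1 hR
  have hal := al_gt hp hpN
  have hJ : 0 < Jc N p 1 R := by
    rw [Jc_eq]
    apply div_pos _ (by linarith)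
    have := Real.rpow_lt_rpow_of_neg one_pos hR (by linarith : 1 - al N p < 0)
    linarith
  -- choose δ
  have hcont : ContinuousAt (fun δ : ℝ => Jc N p (1 + 2 * δ) (R - 2 * δ)) 0 := by
    simp only [Jc_eq]
    refine ContinuousAt.div_const (ContinuousAt.sub ?_ ?_) _
    · exact ContinuousAt.rpow_const (by fun_prop) (Or.inl (by norm_num))
    · exact ContinuousAt.rpow_const (by fun_prop) (Or.inl (by simp; linarith))
  have hev : ∀ᶠ δ in 𝓝 (0 : ℝ), (1 - κ) * Jc N p 1 R < Jc N p (1 + 2 * δ) (R - 2 * δ) := by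
    refine continuousAt_const.eventually_lt hcont ?_
    simp only [mul_zero, add_zero, sub_zero]
    nlinarith
  have hev2 : ∀ᶠ δ in 𝓝[>] (0 : ℝ), (1 - κ) * Jc N p 1 R < Jc N p (1 + 2 * δ) (R - 2 * δ) ∧
      δ < (R - 1) / 4 :=
    (hev.filter_mono nhdsWithin_le_nhds).and
      ((gt_mem_nhds (by linarith : (0 : ℝ) < (R - 1) / 4)).filter_mono nhdsWithin_le_nhds)
  obtain ⟨δ, ⟨h1, h2⟩, h3⟩ := (hev2.and self_mem_nhdsWithin).exists
  have hδ : 0 < δ := h3
  have hA1 : (1 - κ) * Jc N p 1 R ≤ A N p δ R :=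
    h1.le.trans (A_lower hp hpN hδ (by linarith))
  have hA0 : 0 < (1 - κ) * Jc N p 1 R := mul_pos (by linarith) hJ
  have hA : 0 < A N p δ R := hA0.trans_le hA1
  have hle : cap p (closedBall (0 : E N) 1) (ball 0 R) ≤ energy p (ph N p δ R) := by
    refine csInf_le ⟨0, ?_⟩ ⟨_, ph_test hδ hA, ph_one hδ, rfl⟩
    rintro e ⟨φ, -, -, rfl⟩
    exact integral_nonneg fun _ => Real.rpow_nonneg (norm_nonneg _) _
  refine hle.trans ((ph_energy hN hp hδ hR hA).trans ?_)
  refine mul_le_mul_of_nonneg_left ?_ (by rw [sg_eq hN]; positivity)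
  exact Real.rpow_le_rpow_of_nonpos hA0 hA1 (by linarith)

end Pool.Agent.Q94.CI.T6
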