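import Pool.Agent.Q94.CI.Asm

set_option autoImplicit false

open MeasureTheory Metric Set Filter Topology
open scoped ENNReal NNReal

namespace Pool.Agent.Q94.CI

section

variable {N : ℕ} {p : ℝ}

/-- the exponent `(N-1)/(p-1)` -/
noncomputable def al (N : ℕ) (p : ℝ) : ℝ := ((N : ℝ) - 1) / (p - 1)

lemma al_gt (hp : 1 < p) (hpN : p < N) : 1 < al N p := by
  unfold al
  rw [lt_div_iff₀ (by linarith)]
  linarith

/-- the limiting integral `∫_s^{R_a} r^{-α}` -/
noncomputable def Js (N : ℕ) (p : ℝ) (a : Bool) (s : ℝ) : ℝ :=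
  if a then (s ^ (1 - al N p) - 2 ^ (1 - al N p)) / (al N p - 1) else
    s ^ (1 - al N p) / (al N p - 1)

lemma Jc_eq (s R : ℝ) : Jc N p s R = (s ^ (1 - al N p) - R ^ (1 - al N p)) / (al N p - 1) := rfl

lemma Jc_nonneg (hp : 1 < p) (hpN : p < N) {s R : ℝ} (hs : 0 < s) (hR : s ≤ R) :
    0 ≤ Jc N p s R := by
  have h := al_gt hp hpN
  rw [Jc_eq]
  apply div_nonneg _ (by linarith)
  have := Real.rpow_le_rpow_of_nonpos hs hR (by linarith : 1 - al N p ≤ 0)
  linarith

lemma Js_pos (hp : 1 < p) (hpN : p < N) (a : Bool) {s : ℝ} (hs : 0 < s) (hs1 : s < 2) :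
    0 < Js N p a s := by
  have h := al_gt hp hpN
  unfold Js
  split_ifs
  · apply div_pos _ (by linarith)
    have := Real.rpow_lt_rpow_of_neg hs hs1 (by linarith : 1 - al N p < 0)
    linarith
  · exact div_pos (Real.rpow_pos_of_pos hs _) (by linarith)

lemma exists_R (hp : 1 < p) (hpN : p < N) (a : Bool) {φ : E N → ℝ}
    (hφ : IsTest φ (dom a 0 1)) : ∃ R : ℝ, 2 ≤ R ∧ (∀ x, R ≤ ‖x‖ → φ x = 0) ∧
      ∀ s, 0 < s → Jc N p s R ≤ Js N p a s := by
  have h := al_gt hp hpN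
  cases a
  · obtain ⟨R, hR⟩ := (hφ.2.1.isCompact.isBounded).subset_closedBall (0 : E N)
    refine ⟨max 2 (R + 1), le_max_left _ _, fun x hx => ?_, fun s hs => ?_⟩
    · by_contra hne
      have h1 : x ∈ tsupport φ := subset_tsupport _ hne
      have h2 := hR h1
      rw [mem_closedBall_zero_iff] at h2
      have := le_max_right 2 (R + 1)
      linarith
    · rw [Jc_eq]
      unfold Js
      simp only [Bool.false_eq_true, if_false]
      apply div_le_div_of_nonneg_right _ (by linarith)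
      have : 0 < (max 2 (R + 1)) ^ (1 - al N p) :=
        Real.rpow_pos_of_pos (lt_of_lt_of_le two_pos (le_max_left _ _)) _
      linarith
  · refine ⟨2, le_rfl, fun x hx => ?_, fun s hs => ?_⟩
    · by_contra hne
      have h1 : x ∈ tsupport φ := subset_tsupport _ hne
      have h2 := hφ.2.2 h1
      unfold dom at h2
      simp only [if_true, mul_one, mem_ball_zero_iff] at h2
      linarith
    · rw [Jc_eq]
      unfold Js
      simp

lemma lower (h5 : S5) (hN : 2 ≤ N) (hp : 1 < p) (hpN : p < N) (a : Bool) {κ : ℝ} (hκ : 0 < κ) :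
    ∃ C : ℝ, 0 < C ∧ ∀ (s t : ℝ) (φ : E N → ℝ), 0 < s → s < t → t < 2 → IsTest φ (dom a 0 1) →
      sg N ≤ (1 + κ) * Js N p a s ^ (p - 1) * energy p φ +
        C / ((t - s) * s ^ ((N : ℝ) - 1)) *
          ∫ x in ball (0 : E N) t \ ball 0 s, (max (1 - φ x) 0) ^ p := by
  obtain ⟨C, hC, H⟩ := h5 N p κ hN hp hpN hκ
  refine ⟨C, hC, fun s t φ hs hst ht hφ => ?_⟩
  obtain ⟨R, hR, hR1, hR2⟩ := exists_R hp hpN a hφ
  refine (H s t R φ hs hst (by linarith) hφ.1 hR1).trans ?_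
  have h0 := energy_nonneg' (p := p) φ
  have h1 : Jc N p s R ^ (p - 1) ≤ Js N p a s ^ (p - 1) :=
    Real.rpow_le_rpow (Jc_nonneg hp hpN hs (by linarith)) (hR2 s hs) (by linarith)
  gcongr

lemma sg_pos (hN : 2 ≤ N) : 0 < sg N := by
  have : Nonempty (Fin N) := ⟨⟨0, by omega⟩⟩
  have : Nontrivial (E N) := inferInstance
  unfold sg
  refine ENNReal.toReal_pos ?_ (measure_ne_top _ _)
  rw [Measure.toSphere_apply_univ, finrank_euclideanSpace_fin]
  refine mul_ne_zero ?_ (measure_ball_pos _ _ one_pos).ne'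
  exact_mod_cast (by omega : N ≠ 0)

lemma cap_pos (h5 : S5) (hN : 2 ≤ N) (hp : 1 < p) (hpN : p < N) (b : Bool) :
    0 < cap p (closedBall (0 : E N) 1) (dom b 0 1) := by
  obtain ⟨C, hC, H⟩ := lower h5 hN hp hpN b one_pos
  have hJ : 0 < Js N p b (1 / 2) := Js_pos hp hpN b (by norm_num) (by norm_num)
  have hJ' : 0 < Js N p b (1 / 2) ^ (p - 1) := Real.rpow_pos_of_pos hJ _
  have key : sg N / ((1 + 1) * Js N p b (1 / 2) ^ (p - 1)) ≤
      cap p (closedBall (0 : E N) 1) (dom b 0 1) := by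
    refine le_csInf (nonempty_test N b _ Subset.rfl) ?_
    rintro e ⟨φ, h1, h2, rfl⟩
    have h3 := H (1 / 2) 1 φ (by norm_num) (by norm_num) (by norm_num) h1
    have h4 : ∫ x in ball (0 : E N) 1 \ ball 0 (1 / 2), (max (1 - φ x) 0) ^ p = 0 := by
      rw [setIntegral_congr_fun (g := fun _ => (0 : ℝ))
        (measurableSet_ball.diff measurableSet_ball) ?_]
      · simp
      · intro x hx
        have hx1 : x ∈ closedBall (0 : E N) 1 := ball_subset_closedBall hx.1
        have := h2 x hx1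
        show (max (1 - φ x) 0) ^ p = 0
        rw [max_eq_right (by linarith), Real.zero_rpow (by linarith)]
    rw [h4, mul_zero, add_zero] at h3
    rw [div_le_iff₀ (by positivity)]
    linarith
  exact lt_of_lt_of_le (div_pos (sg_pos hN) (by positivity)) key

lemma upper (h6 : S6) (hN : 2 ≤ N) (hp : 1 < p) (hpN : p < N) (a : Bool) {κ : ℝ} (hκ : 0 < κ)
    (hκ1 : κ < 1) : cap p (closedBall (0 : E N) 1) (dom a 0 1) ≤
      sg N * ((1 - κ) * Js N p a 1) ^ (1 - p) := by
  have h := al_gt hp hpN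
  cases a
  · -- absolute capacity
    have ht : Tendsto (fun R : ℝ => R ^ (1 - al N p)) atTop (𝓝 0) := by
      have := tendsto_rpow_neg_atTop (by linarith : 0 < al N p - 1)
      simpa using this
    have hev : ∀ᶠ R : ℝ in atTop, R ^ (1 - al N p) < κ / 2 := ht.eventually (gt_mem_nhds (by positivity))
    obtain ⟨R, hR, hR1⟩ := (hev.and (eventually_gt_atTop 1)).exists
    have h1 := h6 N p (κ / 2) R hN hp hpN (by positivity) (by linarith) hR1
    have h2 : cap p (closedBall (0 : E N) 1) (dom false 0 1) ≤ cap p (closedBall (0 : E N) 1) (ball 0 R) := by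
      obtain ⟨φ, h3, h4⟩ := exists_test N R hR1
      exact cap_anti0 (subset_univ _) ⟨_, φ, h3, h4, rfl⟩
    refine h2.trans (h1.trans ?_)
    refine mul_le_mul_of_nonneg_left ?_ (sg_pos hN).le
    have e1 : Js N p false 1 = 1 / (al N p - 1) := by unfold Js; simp
    have e2 : Jc N p 1 R = (1 - R ^ (1 - al N p)) / (al N p - 1) := by rw [Jc_eq]; simp
    rw [e1, e2]
    refine Real.rpow_le_rpow_of_nonpos ?_ ?_ (by linarith)
    · have : 0 < al N p - 1 := by linarith
      have : 0 < 1 - κ := by linarith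
      positivity
    · rw [mul_div_assoc', mul_div_assoc']
      apply div_le_div_of_nonneg_right _ (by linarith)
      nlinarith
  · have h1 := h6 N p κ 2 hN hp hpN hκ hκ1 (by norm_num)
    have e1 : Js N p true 1 = Jc N p 1 2 := by rw [Jc_eq]; unfold Js; simp
    have e2 : dom true (0 : E N) 1 = ball 0 2 := by unfold dom; simp
    rw [e1, e2]
    exact h1

lemma choose_k (hp : 1 < p) (hpN : p < N) (a : Bool) {γ : ℝ} (_hγ : 0 < γ) (hγ1 : γ < 1) :
    ∃ κ : ℝ, 0 < κ ∧ κ < 1 / 2 ∧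
      (1 + κ) * Js N p a (1 - κ) ^ (p - 1) * (γ * ((1 - κ) * Js N p a 1) ^ (1 - p)) <
        (1 + γ) / 2 := by
  have h := al_gt hp hpN
  have hJ : 0 < Js N p a 1 := Js_pos hp hpN a one_pos one_lt_two
  set f : ℝ → ℝ := fun κ => (1 + κ) * Js N p a (1 - κ) ^ (p - 1) *
    (γ * ((1 - κ) * Js N p a 1) ^ (1 - p)) with hf
  have hc : ContinuousAt f 0 := by
    have h1 : ContinuousAt (fun κ : ℝ => Js N p a (1 - κ)) 0 := by
      unfold Js
      split_ifs
      · refine ContinuousAt.div_const (ContinuousAt.sub ?_ continuousAt_const) _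
        exact ContinuousAt.rpow_const (by fun_prop) (Or.inl (by norm_num))
      · refine ContinuousAt.div_const ?_ _
        exact ContinuousAt.rpow_const (by fun_prop) (Or.inl (by norm_num))
    have h2 : ContinuousAt (fun κ : ℝ => Js N p a (1 - κ) ^ (p - 1)) 0 := by
      refine ContinuousAt.rpow_const h1 (Or.inl ?_)
      simpa using hJ.ne'
    have h3 : ContinuousAt (fun κ : ℝ => ((1 - κ) * Js N p a 1) ^ (1 - p)) 0 := by
      refine ContinuousAt.rpow_const (by fun_prop) (Or.inl ?_)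
      simpa using hJ.ne'
    exact ((continuousAt_const.add continuousAt_id).mul h2).mul (continuousAt_const.mul h3)
  have h0 : f 0 = γ := by
    simp only [hf, add_zero, sub_zero, one_mul]
    rw [mul_left_comm, ← Real.rpow_add hJ]
    simp
  have hev : ∀ᶠ κ in 𝓝 (0 : ℝ), f κ < (1 + γ) / 2 := by
    refine hc.eventually_lt continuousAt_const ?_
    rw [h0]; linarith
  have hev2 : ∀ᶠ κ in 𝓝[>] (0 : ℝ), f κ < (1 + γ) / 2 ∧ κ < 1 / 2 :=
    (hev.filter_mono nhdsWithin_le_nhds).and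
      ((gt_mem_nhds (by norm_num : (0 : ℝ) < 1 / 2)).filter_mono nhdsWithin_le_nhds)
  obtain ⟨κ, ⟨h1, h2⟩, h3⟩ := (hev2.and self_mem_nhdsWithin).exists
  exact ⟨κ, h3, h2, h1⟩

/-- the main step. -/
theorem t7 (h1 : S1) (h3 : S3) (h4 : S4) (h5 : S5) (h6 : S6) : S7 := by
  intro N p γ hN hp hpN hγ hγ1 a b
  have hal := al_gt hp hpN
  have hsg := sg_pos hN
  set γ₂ : ℝ := (1 + γ) / 2 with hγ₂
  have hγ₂0 : 0 < γ₂ := by positivity
  have hγ₂1 : γ₂ < 1 := by rw [hγ₂]; linarith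
  have hγγ₂ : γ < γ₂ := by rw [hγ₂]; linarith
  obtain ⟨κ, hκ, hκ2, hk⟩ := choose_k (N := N) hp hpN a hγ₂0 hγ₂1
  obtain ⟨C₃, hC₃, H3⟩ := h3 N p (by omega) hp
  obtain ⟨C₅, hC₅, H5⟩ := lower h5 hN hp hpN a hκ
  have hca := cap_pos h5 hN hp hpN a
  have hcb := cap_pos h5 hN hp hpN b
  have hup := upper h6 hN hp hpN a hκ (by linarith)
  set ca := cap p (closedBall (0 : E N) 1) (dom a 0 1) with hca_def
  set cb := cap p (closedBall (0 : E N) 1) (dom b 0 1) with hcb_def
  set s : ℝ := 1 - κ with hs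
  set t : ℝ := 1 - κ / 2 with ht
  have hs0 : 0 < s := by rw [hs]; linarith
  have hst : s < t := by rw [hs, ht]; linarith
  have ht1 : t < 1 := by rw [ht]; linarith
  have hsN : 0 < s ^ ((N : ℝ) - 1) := Real.rpow_pos_of_pos hs0 _
  -- the constant in front of ρ^p
  set M : ℝ := C₅ / ((t - s) * s ^ ((N : ℝ) - 1)) * ((4 : ℝ) ^ N * (C₃ / (γ * cb)) * (γ₂ * ca)) with hM
  have hM0 : 0 < M := by
    have : 0 < t - s := by linarith
    positivity
  obtain ⟨ρ, hρ0, hρ2, hρt, hρM⟩ : ∃ ρ : ℝ, 0 < ρ ∧ ρ ≤ 1 / 2 ∧ ρ ≤ 1 - t ∧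
      M * ρ ^ p < (1 - γ₂) / 2 * sg N := by
    have htend : Tendsto (fun ρ : ℝ => M * ρ ^ p) (𝓝[>] 0) (𝓝 0) := by
      have h : ContinuousAt (fun ρ : ℝ => M * ρ ^ p) 0 :=
        continuousAt_const.mul (Real.continuousAt_rpow_const _ _ (Or.inr (by linarith)))
      have h' := h.tendsto
      simp only [Real.zero_rpow (by linarith : p ≠ 0), mul_zero] at h'
      exact h'.mono_left nhdsWithin_le_nhds
    have e1 := htend.eventually (gt_mem_nhds
      (mul_pos (by linarith : 0 < (1 - γ₂) / 2) hsg))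
    have e2 : ∀ᶠ ρ : ℝ in 𝓝[>] 0, ρ < 1 / 2 :=
      (gt_mem_nhds (by norm_num : (0 : ℝ) < 1 / 2)).filter_mono nhdsWithin_le_nhds
    have e3 : ∀ᶠ ρ : ℝ in 𝓝[>] 0, ρ < 1 - t :=
      (gt_mem_nhds (by linarith : (0 : ℝ) < 1 - t)).filter_mono nhdsWithin_le_nhds
    obtain ⟨ρ, ⟨⟨h1, h2⟩, h3⟩, h4⟩ := (((e1.and e2).and e3).and self_mem_nhdsWithin).exists
    exact ⟨ρ, h4, h2.le, h3.le, h1⟩
  refine ⟨ρ, hρ0, hρ2, fun F hF hyp => ?_⟩
  by_contra hcon
  push Not at hcon
  -- a good test function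
  obtain ⟨e, ⟨φ, hφ, hφ1, rfl⟩, he⟩ := exists_lt_of_csInf_lt
    (nonempty_test N a (closedBall 0 1 ∩ F) inter_subset_left)
    (show cap p (closedBall (0 : E N) 1 ∩ F) (dom a 0 1) < γ₂ * ca from
      lt_of_le_of_lt hyp (mul_lt_mul_of_pos_right hγγ₂ hca))
  set v : E N → ℝ := fun x => 1 - φ x with hv
  have hvs : ContDiff ℝ (⊤ : ℕ∞) v := contDiff_const.sub hφ.1
  have hcap : ∀ y : E N, cap p (closedBall y ρ) (dom b y ρ) = ρ ^ ((N : ℝ) - p) * cb := by
    intro y
    have := cap_scale' h1 hp b y (0 : E N) (t := 1) hρ0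
    rwa [smul_zero, add_zero, mul_one] at this
  have hρNp : 0 < ρ ^ ((N : ℝ) - p) := Real.rpow_pos_of_pos hρ0 _
  set m : ℝ := γ * (ρ ^ ((N : ℝ) - p) * cb) with hm
  have hm0 : 0 < m := by positivity
  set f : E N → ℝ≥0∞ := fun x => ENNReal.ofReal ((max (v x) 0) ^ p) with hf
  set g : E N → ℝ≥0∞ := fun x => ENNReal.ofReal (‖fderiv ℝ v x‖ ^ p) with hg
  have hfm : Measurable f := by
    have : Continuous v := hvs.continuous
    exact ((this.measurable.max measurable_const).pow_const _).ennreal_ofReal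
  have hgm : Measurable g := by
    have : Continuous (fderiv ℝ v) := hvs.continuous_fderiv (by simp)
    exact ((this.measurable.norm).pow_const _).ennreal_ofReal
  have hA : ∀ y : E N, ‖y‖ < 1 - ρ → ∫⁻ x in ball y (2 * ρ), f x ≤
      ENNReal.ofReal (C₃ / (γ * cb) * ρ ^ p) * ∫⁻ x in ball y (2 * ρ), g x := by
    intro y hy
    have hK : closedBall y ρ ∩ F ⊆ closedBall 0 1 ∩ F := by
      refine inter_subset_inter_left _ (closedBall_subset_closedBall' ?_)
      rw [dist_zero_right]; linarith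
    have h := H3 ρ m y (closedBall y ρ ∩ F) (dom b y ρ) v hρ0 hm0 inter_subset_left
      (by unfold dom; split_ifs; exacts [Subset.rfl, subset_univ _]) hvs
      (fun x hx => by have := hφ1 x (hK hx); show 1 - φ x ≤ 0; linarith)
      (by have := (hcon y).le; rw [hcap y] at this; exact this)
    have hmne : ENNReal.ofReal m ≠ 0 := by simpa using hm0
    have e1 : ENNReal.ofReal (C₃ / (γ * cb) * ρ ^ p) =
        (ENNReal.ofReal m)⁻¹ * ENNReal.ofReal (C₃ * ρ ^ (N : ℝ)) := by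
      rw [← ENNReal.ofReal_inv_of_pos hm0, ← ENNReal.ofReal_mul (inv_pos.2 hm0).le]
      congr 1
      rw [hm, Real.rpow_sub hρ0]
      have : 0 < ρ ^ p := Real.rpow_pos_of_pos hρ0 _
      have : 0 < ρ ^ (N : ℝ) := Real.rpow_pos_of_pos hρ0 _
      field_simp
    rw [e1, mul_assoc]
    calc ∫⁻ x in ball y (2 * ρ), f x
        = (ENNReal.ofReal m)⁻¹ * (ENNReal.ofReal m * ∫⁻ x in ball y (2 * ρ), f x) := by
          rw [← mul_assoc, ENNReal.inv_mul_cancel hmne ENNReal.ofReal_ne_top, one_mul]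
      _ ≤ _ := by gcongr
  have hB := h4 N ρ _ f g (by omega) hρ0 hρ2 hfm hgm hA
  -- the energy as a lintegral
  have hgE : ∫⁻ x, g x = ENNReal.ofReal (energy p φ) := by
    have hfd : ∀ x, fderiv ℝ v x = -fderiv ℝ φ x := by
      intro x
      rw [hv]
      rw [fderiv_const_sub]
    unfold energy
    rw [ofReal_integral_eq_lintegral_ofReal]
    · refine lintegral_congr fun x => ?_
      show ENNReal.ofReal (‖fderiv ℝ v x‖ ^ p) = _
      rw [hfd, norm_neg]
    · have hc : Continuous (fun x => ‖fderiv ℝ φ x‖ ^ p) :=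
        ((hφ.1.continuous_fderiv (by simp)).norm).rpow_const (fun _ => Or.inr (by linarith))
      refine hc.integrable_of_hasCompactSupport ?_
      refine (hφ.2.1.fderiv ℝ).comp_left (g := fun L : E N →L[ℝ] ℝ => ‖L‖ ^ p) ?_
      simp only [norm_zero]
      exact Real.zero_rpow (by linarith)
    · exact Eventually.of_forall fun x => Real.rpow_nonneg (norm_nonneg _) _
  -- the L^p norm on the shell
  have hτ : ∫ x in ball (0 : E N) t \ ball 0 s, (max (1 - φ x) 0) ^ p ≤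
      (4 : ℝ) ^ N * (C₃ / (γ * cb) * ρ ^ p) * energy p φ := by
    have h0 : 0 ≤ (4 : ℝ) ^ N * (C₃ / (γ * cb) * ρ ^ p) * energy p φ := by
      have := energy_nonneg' (p := p) φ
      have : 0 < ρ ^ p := Real.rpow_pos_of_pos hρ0 _
      positivity
    rw [integral_eq_lintegral_of_nonneg_ae]
    · refine ENNReal.toReal_le_of_le_ofReal h0 ?_
      calc ∫⁻ x in ball (0 : E N) t \ ball 0 s, f x
          ≤ ∫⁻ x in ball (0 : E N) (1 - ρ), f x :=
            lintegral_mono_set (sdiff_subset.trans (ball_subset_ball (by linarith)))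
        _ ≤ _ := hB
        _ = ENNReal.ofReal ((4 : ℝ) ^ N * (C₃ / (γ * cb) * ρ ^ p) * energy p φ) := by
            have e4 : (4 : ℝ≥0∞) ^ N = ENNReal.ofReal ((4 : ℝ) ^ N) := by
              rw [ENNReal.ofReal_pow (by norm_num)]; norm_num
            rw [hgE, e4, ← ENNReal.ofReal_mul (by positivity),
              ← ENNReal.ofReal_mul (by positivity)]
    · exact Eventually.of_forall fun x => Real.rpow_nonneg (le_max_right _ _) _
    · have : Continuous v := hvs.continuous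
      exact ((this.measurable.max measurable_const).pow_const p).aestronglyMeasurable
  have hlow := H5 s t φ hs0 hst (by linarith) hφ
  -- conclusion
  have hE0 := energy_nonneg' (p := p) φ
  have hcoef : 0 ≤ C₅ / ((t - s) * s ^ ((N : ℝ) - 1)) := by
    have : 0 < t - s := by linarith
    positivity
  have hJ : 0 < Js N p a s ^ (p - 1) :=
    Real.rpow_pos_of_pos (Js_pos hp hpN a hs0 (by linarith)) _
  have hρp : 0 < ρ ^ p := Real.rpow_pos_of_pos hρ0 _
  have i1 : (1 + κ) * Js N p a s ^ (p - 1) * energy p φ ≤ (1 + γ₂) / 2 * sg N := by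
    calc (1 + κ) * Js N p a s ^ (p - 1) * energy p φ
        ≤ (1 + κ) * Js N p a s ^ (p - 1) * (γ₂ * (sg N * ((1 - κ) * Js N p a 1) ^ (1 - p))) := by
          gcongr
          exact he.le.trans (mul_le_mul_of_nonneg_left hup hγ₂0.le)
      _ = ((1 + κ) * Js N p a s ^ (p - 1) * (γ₂ * ((1 - κ) * Js N p a 1) ^ (1 - p))) * sg N := by
          ring
      _ ≤ _ := mul_le_mul_of_nonneg_right hk.le hsg.le
  have i2 : C₅ / ((t - s) * s ^ ((N : ℝ) - 1)) *
      ∫ x in ball (0 : E N) t \ ball 0 s, (max (1 - φ x) 0) ^ p < (1 - γ₂) / 2 * sg N := by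
    calc _ ≤ C₅ / ((t - s) * s ^ ((N : ℝ) - 1)) *
          ((4 : ℝ) ^ N * (C₃ / (γ * cb) * ρ ^ p) * energy p φ) := by gcongr
      _ ≤ C₅ / ((t - s) * s ^ ((N : ℝ) - 1)) *
          ((4 : ℝ) ^ N * (C₃ / (γ * cb) * ρ ^ p) * (γ₂ * ca)) := by gcongr
      _ = M * ρ ^ p := by rw [hM]; ring
      _ < _ := hρM
  linarith

end

end Pool.Agent.Q94.CI
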